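import Pool.Agent.Lib.MP_6cd19d_an.T2.C4
import Pool.Agent.Lib.MP_6cd19d_an.T2.E4
import Pool.Agent.Lib.MP_6cd19d_an.A.G2
import Pool.Agent.Lib.MP_6cd19d_an.ND.B04
import Pool.Agent.Lib.MP_6cd19d_an.ND.B24
import Pool.Agent.Lib.MP_6cd19d_an.T2.H3
import Pool.Agent.Lib.MP_6cd19d_an.A.S1

section

/-!
# The volume inequality for the Newton capacity (limit q → n)
-/

set_option autoImplicit false

open MeasureTheory Set Filter Topology Metric
open scoped ENNReal NNReal RealInnerProductSpace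

namespace Pool.Agent.Lib.MP_6cd19d_an.A

open Pool.Agent.Lib.MP_6cd19d_an.ND

variable {n : ℕ}

/-- The capacities are nonnegative. -/
theorem W3_capf_nonneg (s : ℝ) (K : Set (E n)) : 0 ≤ capf s K := by
  rcases lt_trichotomy s 0 with h | h | h
  · rw [capf_neg_def h]
    exact ENNReal.toReal_nonneg
  · rw [h, capf_zero_def]
    split_ifs
    · exact le_rfl
    · have := Metric.diam_nonneg (s := K)
      positivity
  · rw [capf_pos_def h]
    exact ENNReal.toReal_nonneg

/-- The inequality before the limit `q → n`. -/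
theorem W3_key (hn : 2 ≤ n) {q : ℝ} (hq : (n : ℝ) - 2 < q) (hq0 : 0 < q) (hqn : q < n)
    {K : Set (E n)} (hK : IsCompact K) (hv : 0 < (volume K).toReal) {η : ℝ} (hη : 0 < η) :
    (n * η ^ ((n : ℝ) - q) * (volume K).toReal /
      ((1 + η) ^ n * (n * (volume (ball (0 : E n) 1)).toReal +
        ((n : ℝ) - q) * (volume K).toReal))) ^ (1 / q) ≤ capf ((n : ℝ) - 2) K := by
  have hn1 : 1 ≤ n := by omega
  have hn0 : (0 : ℝ) < n := by
    have : (2 : ℝ) ≤ n := by exact_mod_cast hn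
    linarith
  have hnq : (0 : ℝ) < n - q := by linarith
  set v : ℝ := (volume K).toReal with hvdef
  set b : ℝ := (volume (ball (0 : E n) 1)).toReal with hbdef
  have hvtop : volume K ≠ ⊤ := hK.measure_lt_top.ne
  have hvne : volume K ≠ 0 := by
    intro h
    rw [hvdef, h] at hv
    simp at hv
  have hbtop : volume (ball (0 : E n) 1) ≠ ⊤ := measure_ball_lt_top.ne
  have hb0 : 0 < b := by
    have : Nonempty (Fin n) := ⟨⟨0, by omega⟩⟩
    exact ENNReal.toReal_pos (measure_ball_pos volume _ one_pos).ne' hbtop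
  obtain ⟨μ, u, hB⟩ := exists_ballM (n := n) hn1 hq.le hq0 hqn
  obtain ⟨hfin, hk0, hkap⟩ := infEn_ball_fin (n := n) hn1 hq0 hqn
  have hkge := kap_ge hn1 hq0 hqn hB hη
  have hIle := infEn_le_vol hn1 hq0 hqn hK hvne
  have hIpos := infEn_pos hq0 hK
  have hRtop : (volume K)⁻¹ *
      (ENNReal.ofReal (n / ((n : ℝ) - q)) * volume (ball (0 : E n) 1) + volume K) ≠ ⊤ := by
    apply ENNReal.mul_ne_top (ENNReal.inv_ne_top.2 hvne)
    exact ENNReal.add_ne_top.2 ⟨ENNReal.mul_ne_top ENNReal.ofReal_ne_top hbtop, hvtop⟩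
  have hItop : infEn q K ≠ ⊤ := ne_top_of_le_ne_top hRtop hIle
  set I : ℝ := (infEn q K).toReal with hIdef
  have hI0 : 0 < I := ENNReal.toReal_pos hIpos.ne' hItop
  have hIle' : I ≤ v⁻¹ * (n / ((n : ℝ) - q) * b + v) := by
    have h1 := ENNReal.toReal_mono hRtop hIle
    rw [ENNReal.toReal_mul, ENNReal.toReal_inv, ENNReal.toReal_add
      (ENNReal.mul_ne_top ENNReal.ofReal_ne_top hbtop) hvtop, ENNReal.toReal_mul,
      ENNReal.toReal_ofReal (by positivity)] at h1
    exact h1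
  have hmain := capf_le_newton hn hq hqn hK
  have hκ0 : 0 < kap n q := by
    have : 0 < n * η ^ ((n : ℝ) - q) / (((n : ℝ) - q) * (1 + η) ^ n) := by positivity
    linarith
  have hcK : capf q K = I ^ (-1 / q) := by
    rw [capf_pos_def hq0, ← ENNReal.toReal_rpow]
  have hcB : capf q (BB n) = kap n q ^ (-1 / q) := by
    rw [capf_pos_def hq0, ← ENNReal.toReal_rpow]
    rfl
  rw [hcK, hcB] at hmain
  set C : ℝ := capf ((n : ℝ) - 2) K with hC
  have hstep : (kap n q / I) ^ (1 / q) ≤ C := by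
    have h1 : I ^ (-1 / q) = (I ^ (1 / q))⁻¹ := by
      rw [neg_div, Real.rpow_neg hI0.le]
    have h2 : kap n q ^ (-1 / q) = (kap n q ^ (1 / q))⁻¹ := by
      rw [neg_div, Real.rpow_neg hκ0.le]
    rw [h1, h2] at hmain
    have hp1 : 0 < I ^ (1 / q) := Real.rpow_pos_of_pos hI0 _
    have hp2 : 0 < kap n q ^ (1 / q) := Real.rpow_pos_of_pos hκ0 _
    rw [Real.div_rpow hκ0.le hI0.le, div_eq_mul_inv]
    calc kap n q ^ (1 / q) * (I ^ (1 / q))⁻¹ ≤
        kap n q ^ (1 / q) * ((kap n q ^ (1 / q))⁻¹ * C) :=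
          mul_le_mul_of_nonneg_left hmain hp2.le
      _ = C := by
        rw [← mul_assoc, mul_inv_cancel₀ hp2.ne', one_mul]
  refine le_trans ?_ hstep
  have hη1 : 0 < η ^ ((n : ℝ) - q) := Real.rpow_pos_of_pos hη _
  apply Real.rpow_le_rpow (by positivity) _ (by positivity)
  rw [le_div_iff₀ hI0]
  calc n * η ^ ((n : ℝ) - q) * v / ((1 + η) ^ n * (n * b + ((n : ℝ) - q) * v)) * I
      ≤ n * η ^ ((n : ℝ) - q) * v / ((1 + η) ^ n * (n * b + ((n : ℝ) - q) * v)) *
        (v⁻¹ * (n / ((n : ℝ) - q) * b + v)) := by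
          apply mul_le_mul_of_nonneg_left hIle' (by positivity)
    _ = n * η ^ ((n : ℝ) - q) / (((n : ℝ) - q) * (1 + η) ^ n) := by
          have : n * b + ((n : ℝ) - q) * v ≠ 0 := by positivity
          field_simp
    _ ≤ kap n q := hkge

/-- The inequality after the limit `q → n`. -/
theorem W3_lim (hn : 2 ≤ n) {K : Set (E n)} (hK : IsCompact K) (hv : 0 < (volume K).toReal)
    {η : ℝ} (hη : 0 < η) :
    ((volume K).toReal / ((1 + η) ^ n * (volume (ball (0 : E n) 1)).toReal)) ^ (1 / (n : ℝ)) ≤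
      capf ((n : ℝ) - 2) K := by
  have hn0 : (0 : ℝ) < n := by
    have : (2 : ℝ) ≤ n := by exact_mod_cast hn
    linarith
  have hbtop : volume (ball (0 : E n) 1) ≠ ⊤ := measure_ball_lt_top.ne
  set v : ℝ := (volume K).toReal with hvdef
  set b : ℝ := (volume (ball (0 : E n) 1)).toReal with hbdef
  have hb0 : 0 < b := by
    have : Nonempty (Fin n) := ⟨⟨0, by omega⟩⟩
    exact ENNReal.toReal_pos (measure_ball_pos volume _ one_pos).ne' hbtop
  have hne : (𝓝[<] (n : ℝ)).NeBot := inferInstance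
  have hT : Tendsto (fun q : ℝ => (n * η ^ ((n : ℝ) - q) * v /
      ((1 + η) ^ n * (n * b + ((n : ℝ) - q) * v))) ^ (1 / q)) (𝓝[<] (n : ℝ))
      (𝓝 ((v / ((1 + η) ^ n * b)) ^ (1 / (n : ℝ)))) := by
    have h0 : ContinuousAt (fun q : ℝ => (n * η ^ ((n : ℝ) - q) * v /
      ((1 + η) ^ n * (n * b + ((n : ℝ) - q) * v))) ^ (1 / q)) (n : ℝ) := by
      have hden : (1 + η) ^ n * (n * b + ((n : ℝ) - n) * v) ≠ 0 := by
        rw [sub_self, zero_mul, add_zero]
        positivity
      have h1 : ContinuousAt (fun q : ℝ => n * η ^ ((n : ℝ) - q) * v /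
        ((1 + η) ^ n * (n * b + ((n : ℝ) - q) * v))) (n : ℝ) := by
        refine ContinuousAt.div₀ ?_ ?_ hden
        · apply ContinuousAt.mul _ continuousAt_const
          apply ContinuousAt.mul continuousAt_const
          exact (Real.continuousAt_const_rpow hη.ne').comp
            (continuousAt_const.sub continuousAt_id)
        · exact (continuous_const.mul (continuous_const.add
            ((continuous_const.sub continuous_id).mul continuous_const))).continuousAt
      apply ContinuousAt.rpow h1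
      · exact continuousAt_const.div continuousAt_id hn0.ne'
      · left
        simp only [sub_self, Real.rpow_zero, mul_one, zero_mul, add_zero]
        positivity
    have h2 := h0.tendsto.mono_left (nhdsWithin_le_nhds (s := Iio (n : ℝ)))
    have h3 : (n * η ^ ((n : ℝ) - n) * v /
      ((1 + η) ^ n * (n * b + ((n : ℝ) - n) * v))) = v / ((1 + η) ^ n * b) := by
      rw [sub_self, Real.rpow_zero, zero_mul, add_zero, mul_one]
      field_simp
    rw [h3] at h2
    exact h2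
  refine le_of_tendsto hT ?_
  have hev : ∀ᶠ q in 𝓝[<] (n : ℝ), max ((n : ℝ) - 2) 0 < q :=
    Filter.Eventually.filter_mono nhdsWithin_le_nhds
      (lt_mem_nhds (max_lt (by linarith) hn0))
  filter_upwards [hev, self_mem_nhdsWithin] with q hq1 hq2
  exact W3_key hn (lt_of_le_of_lt (le_max_left _ _) hq1)
    (lt_of_le_of_lt (le_max_right _ _) hq1) hq2 hK hv hη

/-- (RA-W3) Volume and the Newton (logarithmic for `n = 2`) capacity, by letting `q → n` in `capf_le_newton`.

Proof.  If `volume K = 0` clear (`capf ≥ 0`, `0^(1/n) = 0`).  Otherwise for `n - 2 < q < n`: `capf q K = I^(-1/q)`, `capf q (BB n) = κ^(-1/q)`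
(`I = infEn q K` finite positive, `κ = kap n q`), so `(κ/I)^(1/q) ≤ capf (n-2) K` by `capf_le_newton`.  With `v = vol K`, `b = vol (ball 0 1)`
(real numbers; `vol (BB n) = b`), `infEn_le_vol` and `kap_ge` (`exists_ballM`): for every `η > 0`
`κ / I ≥ n η^(n-q) / ((n-q)(1+η)^n) * v / (n b/(n-q) + v) = n η^(n-q) v / ((1+η)^n (n b + (n-q) v))`, which tends to
`v / (b (1+η)^n)` as `q → n`.  So `(v / (b (1+η)^n))^(1/n) ≤ capf (n-2) K`; let `η → 0`. -/
theorem vol_le_newton (hn : 2 ≤ n) {K : Set (E n)} (hK : IsCompact K) :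
    (volume K).toReal ^ (1 / (n : ℝ)) ≤
      (volume (BB n)).toReal ^ (1 / (n : ℝ)) * capf ((n : ℝ) - 2) K := by
  have hn0 : (0 : ℝ) < n := by
    have : (2 : ℝ) ≤ n := by exact_mod_cast hn
    linarith
  have hC := W3_capf_nonneg ((n : ℝ) - 2) K
  rcases (ENNReal.toReal_nonneg (a := volume K)).eq_or_lt with h | hv
  · rw [← h, Real.zero_rpow (by positivity)]
    positivity
  have hbtop : volume (ball (0 : E n) 1) ≠ ⊤ := measure_ball_lt_top.ne
  have : Nonempty (Fin n) := ⟨⟨0, by omega⟩⟩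
  have hBB : volume (BB n) = volume (ball (0 : E n) 1) :=
    Measure.addHaar_closedBall_eq_addHaar_ball volume (0 : E n) 1
  rw [hBB]
  set v : ℝ := (volume K).toReal with hvdef
  set b : ℝ := (volume (ball (0 : E n) 1)).toReal with hbdef
  have hb0 : 0 < b := ENNReal.toReal_pos (measure_ball_pos volume _ one_pos).ne' hbtop
  have hT : Tendsto (fun η : ℝ => (v / ((1 + η) ^ n * b)) ^ (1 / (n : ℝ))) (𝓝[>] (0 : ℝ))
      (𝓝 ((v / b) ^ (1 / (n : ℝ)))) := by
    have h0 : ContinuousAt (fun η : ℝ => (v / ((1 + η) ^ n * b)) ^ (1 / (n : ℝ))) (0 : ℝ) := by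
      apply ContinuousAt.rpow _ continuousAt_const
      · left
        simp only [add_zero, one_pow, one_mul]
        positivity
      · apply ContinuousAt.div continuousAt_const
        · exact (((continuous_const.add continuous_id).pow n).mul
            continuous_const).continuousAt
        · simp only [add_zero, one_pow, one_mul]
          positivity
    have h2 := h0.tendsto.mono_left (nhdsWithin_le_nhds (s := Ioi (0 : ℝ)))
    simpa only [add_zero, one_pow, one_mul] using h2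
  have hle : (v / b) ^ (1 / (n : ℝ)) ≤ capf ((n : ℝ) - 2) K := by
    refine le_of_tendsto hT ?_
    filter_upwards [self_mem_nhdsWithin] with η hη
    exact W3_lim hn hK hv hη
  rw [Real.div_rpow hv.le hb0.le] at hle
  have hbp : 0 < b ^ (1 / (n : ℝ)) := Real.rpow_pos_of_pos hb0 _
  rwa [div_le_iff₀' hbp] at hle

end Pool.Agent.Lib.MP_6cd19d_an.A
end

section

/-!
# The volume inequality as the limit `q → n` of inequalities for `cap_q`
-/

set_option autoImplicit false

open MeasureTheory Set Filter Topology Metric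
open scoped ENNReal NNReal RealInnerProductSpace

namespace Pool.Agent.Lib.MP_6cd19d_an.Fin

open Pool.Agent.Lib.MP_6cd19d_an.ND Pool.Agent.Lib.MP_6cd19d_an.A

variable {n : ℕ}

/-- The inequality before the limit `q → n`. -/
theorem vol_key (hn : 1 ≤ n) {q : ℝ} (hq : (n : ℝ) - 2 ≤ q) (hq0 : 0 < q) (hqn : q < n)
    {K : Set (E n)} (hK : IsCompact K) (hv : 0 < (volume K).toReal) {C : ℝ}
    (hmain : capf q K ≤ capf q (BB n) * C) {η : ℝ} (hη : 0 < η) :
    (n * η ^ ((n : ℝ) - q) * (volume K).toReal /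
      ((1 + η) ^ n * (n * (volume (ball (0 : E n) 1)).toReal +
        ((n : ℝ) - q) * (volume K).toReal))) ^ (1 / q) ≤ C := by
  have hn0 : (0 : ℝ) < n := by
    have : (1 : ℝ) ≤ n := by exact_mod_cast hn
    linarith
  have hnq : (0 : ℝ) < n - q := by linarith
  set v : ℝ := (volume K).toReal with hvdef
  set b : ℝ := (volume (ball (0 : E n) 1)).toReal with hbdef
  have hvtop : volume K ≠ ⊤ := hK.measure_lt_top.ne
  have hvne : volume K ≠ 0 := by
    intro h
    rw [hvdef, h] at hv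
    simp at hv
  have hbtop : volume (ball (0 : E n) 1) ≠ ⊤ := measure_ball_lt_top.ne
  have hb0 : 0 < b := by
    have : Nonempty (Fin n) := ⟨⟨0, by omega⟩⟩
    exact ENNReal.toReal_pos (measure_ball_pos volume _ one_pos).ne' hbtop
  obtain ⟨μ, u, hB⟩ := exists_ballM (n := n) hn hq hq0 hqn
  obtain ⟨hfin, hk0, hkap⟩ := infEn_ball_fin (n := n) hn hq0 hqn
  have hkge := kap_ge hn hq0 hqn hB hη
  have hIle := infEn_le_vol hn hq0 hqn hK hvne
  have hIpos := A.infEn_pos hq0 hK
  have hRtop : (volume K)⁻¹ *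
      (ENNReal.ofReal (n / ((n : ℝ) - q)) * volume (ball (0 : E n) 1) + volume K) ≠ ⊤ := by
    apply ENNReal.mul_ne_top (ENNReal.inv_ne_top.2 hvne)
    exact ENNReal.add_ne_top.2 ⟨ENNReal.mul_ne_top ENNReal.ofReal_ne_top hbtop, hvtop⟩
  have hItop : infEn q K ≠ ⊤ := ne_top_of_le_ne_top hRtop hIle
  set I : ℝ := (infEn q K).toReal with hIdef
  have hI0 : 0 < I := ENNReal.toReal_pos hIpos.ne' hItop
  have hIle' : I ≤ v⁻¹ * (n / ((n : ℝ) - q) * b + v) := by
    have h1 := ENNReal.toReal_mono hRtop hIle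
    rw [ENNReal.toReal_mul, ENNReal.toReal_inv, ENNReal.toReal_add
      (ENNReal.mul_ne_top ENNReal.ofReal_ne_top hbtop) hvtop, ENNReal.toReal_mul,
      ENNReal.toReal_ofReal (by positivity)] at h1
    exact h1
  have hκ0 : 0 < kap n q := hk0
  have hcK : capf q K = I ^ (-1 / q) := by
    rw [capf_pos_def hq0, ← ENNReal.toReal_rpow]
  have hcB : capf q (BB n) = kap n q ^ (-1 / q) := by
    rw [capf_pos_def hq0, ← ENNReal.toReal_rpow]
    rfl
  rw [hcK, hcB] at hmain
  have hstep : (kap n q / I) ^ (1 / q) ≤ C := by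
    have h1 : I ^ (-1 / q) = (I ^ (1 / q))⁻¹ := by
      rw [neg_div, Real.rpow_neg hI0.le]
    have h2 : kap n q ^ (-1 / q) = (kap n q ^ (1 / q))⁻¹ := by
      rw [neg_div, Real.rpow_neg hκ0.le]
    rw [h1, h2] at hmain
    have hp1 : 0 < I ^ (1 / q) := Real.rpow_pos_of_pos hI0 _
    have hp2 : 0 < kap n q ^ (1 / q) := Real.rpow_pos_of_pos hκ0 _
    rw [Real.div_rpow hκ0.le hI0.le, div_eq_mul_inv]
    calc kap n q ^ (1 / q) * (I ^ (1 / q))⁻¹ ≤
        kap n q ^ (1 / q) * ((kap n q ^ (1 / q))⁻¹ * C) :=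
          mul_le_mul_of_nonneg_left hmain hp2.le
      _ = C := by
        rw [← mul_assoc, mul_inv_cancel₀ hp2.ne', one_mul]
  refine le_trans ?_ hstep
  have hη1 : 0 < η ^ ((n : ℝ) - q) := Real.rpow_pos_of_pos hη _
  apply Real.rpow_le_rpow (by positivity) _ (by positivity)
  rw [le_div_iff₀ hI0]
  calc n * η ^ ((n : ℝ) - q) * v / ((1 + η) ^ n * (n * b + ((n : ℝ) - q) * v)) * I
      ≤ n * η ^ ((n : ℝ) - q) * v / ((1 + η) ^ n * (n * b + ((n : ℝ) - q) * v)) *
        (v⁻¹ * (n / ((n : ℝ) - q) * b + v)) := by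
          apply mul_le_mul_of_nonneg_left hIle' (by positivity)
    _ = n * η ^ ((n : ℝ) - q) / (((n : ℝ) - q) * (1 + η) ^ n) := by
          have : n * b + ((n : ℝ) - q) * v ≠ 0 := by positivity
          field_simp
    _ ≤ kap n q := hkge

/-- If `cap_q K ≤ cap_q B * C` for all `q < n` near `n`, then `vol(K)^(1/n) ≤ vol(B)^(1/n) * C`. -/
theorem vol_le_of_cap (hn : 1 ≤ n) {K : Set (E n)} (hK : IsCompact K) {C a : ℝ} (hC : 0 ≤ C)
    (han : a < n) (hmain : ∀ q : ℝ, a < q → q < n → capf q K ≤ capf q (BB n) * C) :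
    (volume K).toReal ^ (1 / (n : ℝ)) ≤ (volume (BB n)).toReal ^ (1 / (n : ℝ)) * C := by
  have hn0 : (0 : ℝ) < n := by
    have : (1 : ℝ) ≤ n := by exact_mod_cast hn
    linarith
  rcases (ENNReal.toReal_nonneg (a := volume K)).eq_or_lt with h | hv
  · rw [← h, Real.zero_rpow (by positivity)]
    positivity
  have hbtop : volume (ball (0 : E n) 1) ≠ ⊤ := measure_ball_lt_top.ne
  have : Nonempty (Fin n) := ⟨⟨0, by omega⟩⟩
  have hBB : volume (BB n) = volume (ball (0 : E n) 1) :=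
    Measure.addHaar_closedBall_eq_addHaar_ball volume (0 : E n) 1
  rw [hBB]
  set v : ℝ := (volume K).toReal with hvdef
  set b : ℝ := (volume (ball (0 : E n) 1)).toReal with hbdef
  have hb0 : 0 < b := ENNReal.toReal_pos (measure_ball_pos volume _ one_pos).ne' hbtop
  have hlim : ∀ η : ℝ, 0 < η → (v / ((1 + η) ^ n * b)) ^ (1 / (n : ℝ)) ≤ C := by
    intro η hη
    have hne : (𝓝[<] (n : ℝ)).NeBot := inferInstance
    have hT : Tendsto (fun q : ℝ => (n * η ^ ((n : ℝ) - q) * v /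
        ((1 + η) ^ n * (n * b + ((n : ℝ) - q) * v))) ^ (1 / q)) (𝓝[<] (n : ℝ))
        (𝓝 ((v / ((1 + η) ^ n * b)) ^ (1 / (n : ℝ)))) := by
      have h0 : ContinuousAt (fun q : ℝ => (n * η ^ ((n : ℝ) - q) * v /
        ((1 + η) ^ n * (n * b + ((n : ℝ) - q) * v))) ^ (1 / q)) (n : ℝ) := by
        have hden : (1 + η) ^ n * (n * b + ((n : ℝ) - n) * v) ≠ 0 := by
          rw [sub_self, zero_mul, add_zero]
          positivity
        have h1 : ContinuousAt (fun q : ℝ => n * η ^ ((n : ℝ) - q) * v /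
          ((1 + η) ^ n * (n * b + ((n : ℝ) - q) * v))) (n : ℝ) := by
          refine ContinuousAt.div₀ ?_ ?_ hden
          · apply ContinuousAt.mul _ continuousAt_const
            apply ContinuousAt.mul continuousAt_const
            exact (Real.continuousAt_const_rpow hη.ne').comp
              (continuousAt_const.sub continuousAt_id)
          · exact (continuous_const.mul (continuous_const.add
              ((continuous_const.sub continuous_id).mul continuous_const))).continuousAt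
        apply ContinuousAt.rpow h1
        · exact continuousAt_const.div continuousAt_id hn0.ne'
        · left
          simp only [sub_self, Real.rpow_zero, mul_one, zero_mul, add_zero]
          positivity
      have h2 := h0.tendsto.mono_left (nhdsWithin_le_nhds (s := Iio (n : ℝ)))
      have h3 : (n * η ^ ((n : ℝ) - n) * v /
        ((1 + η) ^ n * (n * b + ((n : ℝ) - n) * v))) = v / ((1 + η) ^ n * b) := by
        rw [sub_self, Real.rpow_zero, zero_mul, add_zero, mul_one]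
        field_simp
      rw [h3] at h2
      exact h2
    refine le_of_tendsto hT ?_
    have hev : ∀ᶠ q in 𝓝[<] (n : ℝ), max (max ((n : ℝ) - 2) 0) a < q :=
      Filter.Eventually.filter_mono nhdsWithin_le_nhds
        (lt_mem_nhds (max_lt (max_lt (by linarith) hn0) han))
    filter_upwards [hev, self_mem_nhdsWithin] with q hq1 hq2
    obtain ⟨h12, hqa⟩ := max_lt_iff.1 hq1
    obtain ⟨h1, h2⟩ := max_lt_iff.1 h12
    exact vol_key hn h1.le h2 hq2 hK hv (hmain q hqa hq2) hη
  have hT : Tendsto (fun η : ℝ => (v / ((1 + η) ^ n * b)) ^ (1 / (n : ℝ))) (𝓝[>] (0 : ℝ))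
      (𝓝 ((v / b) ^ (1 / (n : ℝ)))) := by
    have h0 : ContinuousAt (fun η : ℝ => (v / ((1 + η) ^ n * b)) ^ (1 / (n : ℝ))) (0 : ℝ) := by
      apply ContinuousAt.rpow _ continuousAt_const
      · left
        simp only [add_zero, one_pow, one_mul]
        positivity
      · apply ContinuousAt.div continuousAt_const
        · exact (((continuous_const.add continuous_id).pow n).mul
            continuous_const).continuousAt
        · simp only [add_zero, one_pow, one_mul]
          positivity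
    have h2 := h0.tendsto.mono_left (nhdsWithin_le_nhds (s := Ioi (0 : ℝ)))
    simpa only [add_zero, one_pow, one_mul] using h2
  have hle : (v / b) ^ (1 / (n : ℝ)) ≤ C := by
    refine le_of_tendsto hT ?_
    filter_upwards [self_mem_nhdsWithin] with η hη
    exact hlim η hη
  rw [Real.div_rpow hv.le hb0.le] at hle
  have hbp : 0 < b ^ (1 / (n : ℝ)) := Real.rpow_pos_of_pos hb0 _
  rwa [div_le_iff₀' hbp] at hle

end Pool.Agent.Lib.MP_6cd19d_an.Fin
end

section

/-!
# F(U) is subharmonic for LL off K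
-/

set_option autoImplicit false

open MeasureTheory Set Filter Topology Metric
open scoped ENNReal NNReal RealInnerProductSpace

namespace Pool.Agent.Lib.MP_6cd19d_an.T2

open Pool.Agent.Lib.MP_6cd19d_an.ND Pool.Agent.Lib.MP_6cd19d_an.A

variable {n : ℕ}

/-- (T2-H1) `F(U)` has `LL (p+1-n) ≥ 0` off `K`.

Proof.  `t = rU q (up μ) z ∈ (0, fq n q 0)` (`rU_up_lt`).  `LL_rU` gives `b` with `LL = q (q-p) S`; `A.hasD2_comp`: derivatives `F1 t a_i`, second derivatives `F2 t a_i² + F1 t b_i`, `a_i = q v_i`.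
`LL` of these is `F1 t LL + F2 t q² ‖v‖²` (`A.sum_sq`; if `yc z = 0` then `a_last = 0` by `yc_vV`).  Multiply by `th > 0`: `F1 t q (q-p) (th S - ‖v‖²) ≥ 0` by `pointwise`. -/
theorem LL_F {p q : ℝ} (hn : 1 ≤ n) (hp0 : 0 < p) (hp2 : (n : ℝ) - 2 < p) (hpq : p < q)
    (hqn : q < n) {L F F1 F2 : ℝ → ℝ} (hLc : ContinuousOn L (Ioo 0 (fq n q 0)))
    (hL : ∀ t ∈ Ioo 0 (fq n q 0), 0 < L t ∧ fq n q (L t) = t)
    (hF : ∀ t ∈ Ioo 0 (fq n q 0), HasDerivAt F (F1 t) t ∧ HasDerivAt F1 (F2 t) t ∧ 0 < F1 t ∧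
        F2 t * th n q (L t) = -((q - p) / q) * F1 t ∧ 0 < th n q (L t) ∧ 0 < F t ∧
        F t < fq n p 0 ∧ (1 + t ^ (-2 / q)) ^ (-p / 2) ≤ F t)
    {K : Set (E n)} (hK : IsCompact K) {μ : Measure (E n)} (hμ : PK K μ)
    (hU : ∀ x, pot q μ x ≤ ENNReal.ofReal (fq n q 0)) {z : E (n + 1)} (hz : z ∉ emb '' K) :
    ∃ a b : Fin (n + 1) → ℝ, HasD2 (fun z => F (rU q (up μ) z)) z a b ∧
      0 ≤ LL (p + 1 - n) a b z := by
  have hfin : μ univ ≠ ⊤ := by rw [hμ.1]; exact ENNReal.one_ne_top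
  have hq0 : 0 < q := by linarith
  have hq2 : (n : ℝ) - 2 < q := by linarith
  have hκ : 0 ≤ fq n q 0 := by
    refine setIntegral_nonneg measurableSet_Ioi fun τ hτ => ?_
    have hτ0 : (0 : ℝ) < τ := hτ
    unfold wt
    positivity
  obtain ⟨t, ht⟩ : ∃ t : ℝ, t = rU q (up μ) z := ⟨_, rfl⟩
  have hlt := rU_up_lt hq0 hq2 hK hμ hκ hU hz
  rw [← ht] at hlt
  obtain ⟨b, hb, hLL⟩ := LL_rU (q := q) p hK hfin hμ.2 hz
  obtain ⟨hF0, hF1, hF1pos, hF2, hth, -⟩ := hF t hlt
  have hev : ∀ᶠ s in 𝓝 (rU q (up μ) z), HasDerivAt F (F1 s) s := by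
    rw [← ht]
    filter_upwards [isOpen_Ioo.mem_nhds (show t ∈ Ioo 0 (fq n q 0) from hlt)] with s hs
    exact (hF s hs).1
  have hF1' : HasDerivAt F1 (F2 t) (rU q (up μ) z) := by
    rw [← ht]
    exact hF1
  refine ⟨_, _, hasD2_comp hb hev hF1', ?_⟩
  rw [← ht]
  have hP := pointwise hn hq0 hq2 hqn hLc hL hK hμ hU hz
  rw [← ht] at hP
  have hyc := yc_vV (q := q) hK hfin hμ.2 hz
  have hv : yc (vV q (up μ) z) = (vV q (up μ) z) (Fin.last n) := rfl
  have hkey : LL (p + 1 - n) (fun i => F1 t * (q * (vV q (up μ) z) i))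
      (fun i => F2 t * (q * (vV q (up μ) z) i) ^ 2 + F1 t * b i) z =
      F2 t * (q ^ 2 * ‖vV q (up μ) z‖ ^ 2) + F1 t * (q * (q - p) * rS q (up μ) z) := by
    rw [← hLL]
    unfold LL
    have h5 : ∀ i, (q * (vV q (up μ) z) i) ^ 2 = q ^ 2 * ((vV q (up μ) z) i) ^ 2 :=
      fun i => by ring
    have hs : ∑ i, (F2 t * (q * (vV q (up μ) z) i) ^ 2 + F1 t * b i) =
        F2 t * (q ^ 2 * ‖vV q (up μ) z‖ ^ 2) + F1 t * ∑ i, b i := by
      simp_rw [h5]
      rw [Finset.sum_add_distrib, ← Finset.mul_sum, ← Finset.mul_sum, ← Finset.mul_sum, sum_sq]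
    rw [hs]
    by_cases hy : yc z = 0
    · have h0 : (vV q (up μ) z) (Fin.last n) = 0 := by
        rw [← hv, hyc, hy]
        ring
      rw [if_pos hy, if_pos hy]
      beta_reduce
      rw [h0]
      ring
    · rw [if_neg hy, if_neg hy]
      ring
  rw [hkey]
  have hθ : 0 ≤ th n q (L t) * (F2 t * (q ^ 2 * ‖vV q (up μ) z‖ ^ 2) +
      F1 t * (q * (q - p) * rS q (up μ) z)) := by
    have e1 : th n q (L t) * (F2 t * (q ^ 2 * ‖vV q (up μ) z‖ ^ 2) +
        F1 t * (q * (q - p) * rS q (up μ) z)) =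
        (F2 t * th n q (L t)) * (q ^ 2 * ‖vV q (up μ) z‖ ^ 2) +
        F1 t * (q * (q - p)) * (th n q (L t) * rS q (up μ) z) := by ring
    have e2 : (-((q - p) / q) * F1 t) * (q ^ 2 * ‖vV q (up μ) z‖ ^ 2) =
        -(F1 t * (q * (q - p)) * ‖vV q (up μ) z‖ ^ 2) := by
      field_simp
    rw [e1, hF2, e2]
    have e3 : 0 ≤ F1 t * (q * (q - p)) :=
      mul_nonneg hF1pos.le (mul_nonneg hq0.le (by linarith))
    have e4 := mul_le_mul_of_nonneg_left hP e3
    linarith
  exact nonneg_of_mul_nonneg_right hθ hth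

end Pool.Agent.Lib.MP_6cd19d_an.T2
end

section

/-!
# C22: comparison with the `s`-equilibrium measure, `n = 2`, `0 < s < 2`

`K ⊂ ℝ²` compact, `I = infEn s K ≠ ⊤`; `μ` from `exists_equilibrium` (P6; `n - 2 = 0 ≤ s`): `pot s μ x ≤ I` for all `x`; by
`nl_pot_le`: `∫ nl d T (x - ξ) dμ ≤ M := (I.toReal - 1)/s` for all `T`, `x`. For `0 < d < 1` let `b = exp (2 (M+d))`.
`cmpL_s` (`-2 < p < 0`): for `μ''` with `PK (closedBall 0 1) μ''`, `μ' = μ''.map (exp (-d) • ·)` lives on
`closedBall 0 (exp (-d))`, so (`energy_gp0L`, `ball_gp0L`) for `R` large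
`∬ gp0 p R (b ‖x-y‖^2) dμ dμ ≤ ∬ gp0 p R (exp (-2d) ‖x-y‖^2) dμ'' dμ''`. Add to this both `ρ`-terms of `gp0_of_neg`:
`∬ (exp (-2d) ‖x-y‖^2)^(-p/2) dμ'' dμ'' ≤ ∬ (b ‖x-y‖^2)^(-p/2) dμ dμ` (all finite), i.e.
`exp (p d) en p μ'' ≤ exp (-p (M+d)) en p μ ≤ exp (-p (M+d)) supEn p K`; supremum over `μ''`, then `d → 0`.
(Same as `cmp_neg` in B22b.)
`diamL_s`: as `diam_ge` in B23a. `energy_powL` for all `k`: `∬ ‖x-y‖^(2k) dmL dmL ≤ b^k (diam K)^(2k)`.
Let `0 < T < 2 exp (-d)`; then `P = (mL × mL) {‖x - y‖ > T} > 0`: take a unit vector `e1`; the open sets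
`V± = {z : dist z (± r' e1) < ε}` have positive `mL` mass when `r'` is such that `btL (r' e1) > 0` (exists since
`integral_btL_pos`, and `btL d 0` is radial, `btL_formula`; automatically `exp (-d) ≤ r'`), and
`‖x - y‖ ≥ 2 r' - 2 ε > T` for `x ∈ V+`, `y ∈ V-`, `ε` small. So `T^(2k) P ≤ (b (diam K)^2)^k` for all `k`, hence
`T^2 ≤ b (diam K)^2`. Let `T → 2 exp (-d)`, then `d → 0`.
-/

set_option autoImplicit false

open MeasureTheory Set Filter Topology
open scoped ENNReal ContDiff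

namespace Pool.Agent.Lib.MP_6cd19d_an.ND

/-- The inequality for each `d`. -/
private lemma c22a_d {p : ℝ} (hp : -2 < p) (hp2 : p < 0) {s : ℝ} (hs : 0 < s)
    {K : Set (E 2)} (hK : IsCompact K) (hI : infEn s K ≠ ⊤) {d : ℝ} (hd : 0 < d)
    (hd1 : d < 1) :
    supEn p (Metric.closedBall (0 : E 2) 1) ≤
      ENNReal.ofReal (Real.exp (-p * (((infEn s K).toReal - 1) / s) + -p * (2 * d))) *
        supEn p K := by
  obtain ⟨μ, hPK, -, -, hpot⟩ := exists_equilibrium (n := 2) (s := s) hs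
    (by push_cast; linarith) hK hI
  have hpot' : ∀ x, pot s μ x ≤ ENNReal.ofReal (infEn s K).toReal := fun x => by
    rw [ENNReal.ofReal_toReal hI]
    exact hpot x
  set M : ℝ := ((infEn s K).toReal - 1) / s with hM
  have hnl : ∀ T x, ∫ ξ, nl d T (x - ξ) ∂μ ≤ M := fun T x =>
    nl_pot_le hs hK hPK ENNReal.toReal_nonneg hpot' hd hd1 x
  set b : ℝ := Real.exp (2 * (M + d)) with hb
  have hb0 : 0 < b := Real.exp_pos _
  set r : ℝ := Real.exp (-d) with hr
  have hr0 : 0 < r := Real.exp_pos _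
  have hr1 : r ≤ 1 := by
    rw [hr, Real.exp_le_one_iff]
    linarith
  refine iSup_le fun μ'' => iSup_le fun hμ'' => ?_
  have hμ' := b22b_pk hr0 hμ''
  set μ' := μ''.map (fun x => r • x) with hμ'def
  set R : ℝ := b * (Metric.diam K) ^ 2 + (2 * Real.exp d) ^ 2 + 4 with hR
  have hRK : ∀ x ∈ K, ∀ y ∈ K, b * ‖x - y‖ ^ 2 ≤ R := by
    intro x hx y hy
    have h1 : ‖x - y‖ ≤ Metric.diam K := by
      rw [← dist_eq_norm]
      exact Metric.dist_le_diam_of_mem hK.isBounded hx hy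
    have h2 : b * ‖x - y‖ ^ 2 ≤ b * (Metric.diam K) ^ 2 := by gcongr
    have h3 := sq_nonneg (2 * Real.exp d)
    rw [hR]
    linarith
  have hR2 : (2 * Real.exp d) ^ 2 ≤ R := by
    have : 0 ≤ b * (Metric.diam K) ^ 2 := by positivity
    rw [hR]
    linarith
  have hRB : ∀ x ∈ Metric.closedBall (0 : E 2) r, ∀ y ∈ Metric.closedBall (0 : E 2) r,
      1 * ‖x - y‖ ^ 2 ≤ R := by
    intro x hx y hy
    rw [Metric.mem_closedBall, dist_zero_right] at hx hy
    have h1 : ‖x - y‖ ≤ 2 := by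
      have := norm_sub_le x y
      linarith
    have h2 : ‖x - y‖ ^ 2 ≤ 2 ^ 2 := by gcongr
    have h3 := sq_nonneg (2 * Real.exp d)
    have : 0 ≤ b * (Metric.diam K) ^ 2 := by positivity
    rw [hR, one_mul]
    linarith
  have hA := energy_gp0L hp hp2.le hd hd1 hK hPK hnl (R := R) hRK hR2
  have hB := ball_gp0L hp hp2.le hd hd1 hμ' (R := R) hR2
  have hAB := hA.trans hB
  have e1 := b22b_split hp2 hPK hb0.le hRK
  have e2 := b22b_split hp2 hμ' zero_le_one hRB
  simp only [one_mul] at e2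
  rw [Real.one_rpow] at e2
  have hfin : (∫⁻ x, ∫⁻ y, gp0 p R (‖x - y‖ ^ 2) ∂μ' ∂μ') ≠ ⊤ := by
    intro h
    rw [h, top_add] at e2
    exact ENNReal.ofReal_ne_top e2.symm
  have e3 : ENNReal.ofReal (1 / (-p)) * en p μ' ≤ ENNReal.ofReal (b ^ (-p / 2) / (-p)) * en p μ := by
    have h1 : (∫⁻ x, ∫⁻ y, gp0 p R (‖x - y‖ ^ 2) ∂μ' ∂μ') + ENNReal.ofReal (1 / (-p)) * en p μ' ≤
        (∫⁻ x, ∫⁻ y, gp0 p R (‖x - y‖ ^ 2) ∂μ' ∂μ') +
          ENNReal.ofReal (b ^ (-p / 2) / (-p)) * en p μ := by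
      rw [e2, ← e1]
      gcongr
    exact (ENNReal.add_le_add_iff_left hfin).mp h1
  have hp0 : 0 < -p := by linarith
  have e4 : en p μ'' = ENNReal.ofReal (r ^ p * (-p)) * (ENNReal.ofReal (1 / (-p)) * en p μ') := by
    rw [hμ'def, b22b_scale hp2 hr0, ← mul_assoc, ← mul_assoc,
      ← ENNReal.ofReal_mul (by positivity), ← ENNReal.ofReal_mul (by positivity)]
    have : r ^ p * (-p) * (1 / (-p)) * r ^ (-p) = 1 := by
      rw [Real.rpow_neg hr0.le]
      have h1 : r ^ p ≠ 0 := (Real.rpow_pos_of_pos hr0 p).ne'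
      rw [mul_assoc (r ^ p), mul_one_div_cancel hp0.ne', mul_one, mul_inv_cancel₀ h1]
    rw [this, ENNReal.ofReal_one, one_mul]
  have e5 : en p μ ≤ supEn p K := le_iSup_of_le μ (le_iSup_of_le hPK le_rfl)
  calc en p μ'' = ENNReal.ofReal (r ^ p * (-p)) * (ENNReal.ofReal (1 / (-p)) * en p μ') := e4
    _ ≤ ENNReal.ofReal (r ^ p * (-p)) * (ENNReal.ofReal (b ^ (-p / 2) / (-p)) * supEn p K) :=
        mul_le_mul' le_rfl (e3.trans (mul_le_mul' le_rfl e5))
    _ = ENNReal.ofReal (Real.exp (-p * M + -p * (2 * d))) * supEn p K := by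
        rw [← mul_assoc, ← ENNReal.ofReal_mul (by positivity)]
        congr 2
        rw [hr, hb, ← Real.exp_mul, ← Real.exp_mul, mul_assoc, mul_div_cancel₀ _ hp0.ne',
          ← Real.exp_add]
        congr 1
        ring

theorem cmpL_s {p : ℝ} (hp : -2 < p) (hp2 : p < 0) {s : ℝ} (hs : 0 < s)
    {K : Set (E 2)} (hK : IsCompact K) (hI : infEn s K ≠ ⊤) :
    supEn p (Metric.closedBall (0 : E 2) 1) ≤
      ENNReal.ofReal (Real.exp (-p * (((infEn s K).toReal - 1) / s))) * supEn p K := by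
  set M : ℝ := ((infEn s K).toReal - 1) / s with hM
  have h1 : Tendsto (fun d : ℝ => ENNReal.ofReal (Real.exp (-p * M + -p * (2 * d))) * supEn p K)
      (𝓝[>] 0) (𝓝 (ENNReal.ofReal (Real.exp (-p * M + -p * (2 * 0))) * supEn p K)) := by
    apply ENNReal.Tendsto.mul_const
    · apply ENNReal.tendsto_ofReal
      apply tendsto_nhdsWithin_of_tendsto_nhds
      have h2 : Continuous (fun d : ℝ => Real.exp (-p * M + -p * (2 * d))) := by fun_prop
      exact h2.tendsto 0
    · left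
      rw [Ne, ENNReal.ofReal_eq_zero, not_le]
      positivity
  rw [mul_zero, mul_zero, add_zero] at h1
  refine ge_of_tendsto h1 ?_
  have h4 : ∀ᶠ d : ℝ in 𝓝[>] 0, d ∈ Ioo (0 : ℝ) 1 := Ioo_mem_nhdsGT one_pos
  filter_upwards [h4] with d hd
  exact c22a_d hp hp2 hs hK hI hd.1 hd.2

end Pool.Agent.Lib.MP_6cd19d_an.ND
end

section

/-!
# The comparison
-/

set_option autoImplicit false

open MeasureTheory Set Filter Topology Metric
open scoped ENNReal NNReal RealInnerProductSpace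

namespace Pool.Agent.Lib.MP_6cd19d_an.T2

open Pool.Agent.Lib.MP_6cd19d_an.ND Pool.Agent.Lib.MP_6cd19d_an.A

variable {n : ℕ}

/-- (T2-H4) `I_e ≤ κ_p`.

Proof.  `L` (`exists_L`), `F` (`exists_F`), `ν` (`exists_kR_min`), `I = (kIn ..).toReal`, `κp = fq n p 0`.  Suppose `κp < I`; `c = κp / I < 1`, `c > 0`.  `f z = F (rU q (up μ) z) - c wR p e ν z`.
`max_principle_LL` with `β = p + 1 - n > -1`, `K' = emb '' K`: continuity off `K'` (`A.continuousAt_rU`, `F` differentiable at `rU ∈ (0, κq)`, `rU_up_lt`, `continuous_wR`); near `z₀ = emb x`, `x ∈ K`: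
`f z ≤ κp - c wR z` and `wR z → wR z₀ ≥ I`, `κp - c I = 0`; at infinity `F (rU) → 0` (`F → 0` at `0+`, `rU → 0+` by `rU_up_bounds`), `wR ≥ 0`; `LL`: `LL_F`, `LL_wR` with `LL_add_smul` (`-c`), `hasD2_add`, `hasD2_smul`.
So `f ≤ 0` off `K'`.  But for `‖z‖` large (`z = R • e`, off `K'`): `F (rU) ≥ (1 + rU^(-2/q))^(-p/2) ≥ (1 + (‖z‖+ρ)²)^(-p/2)` and `c wR ≤ c (‖z‖-ρ)^(-p)`: the quotient of the two bounds tends to `1 > c`. Contradiction. -/
theorem kIn_le {p q : ℝ} (hn : 1 ≤ n) (hp0 : 0 < p) (hp2 : (n : ℝ) - 2 < p) (hpq : p < q)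
    (hqn : q < n) {K : Set (E n)} (hK : IsCompact K) (hne : K.Nonempty) {μ : Measure (E n)}
    (hμ : PK K μ) (hU : ∀ x, pot q μ x ≤ ENNReal.ofReal (fq n q 0)) {e : ℝ} (he : 0 < e) :
    kIn (fun x y : E n => (kR p e x y : ℝ≥0∞)) K ≤ ENNReal.ofReal (fq n p 0) := by
  have hq0 : 0 < q := hp0.trans hpq
  have hq2 : (n : ℝ) - 2 < q := hp2.trans hpq
  have hpn : p < n := hpq.trans hqn
  obtain ⟨L, hLc, hL, hL'⟩ := exists_L (n := n) hq0 hqn
  obtain ⟨F, F1, F2, hF, hF0⟩ := exists_F hp0 hp2 hpq hqn hLc hL hL'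
  obtain ⟨hfinI, ν, hν, hW⟩ := exists_kR_min (n := n) hp0 he hK hne
  set I : ℝ := (kIn (fun x y : E n => (kR p e x y : ℝ≥0∞)) K).toReal with hI
  have hκp : 0 < fq n p 0 := fq_pos hp0 hpn le_rfl
  have hκq : 0 < fq n q 0 := fq_pos hq0 hqn le_rfl
  rw [← ENNReal.ofReal_toReal hfinI, ← hI]
  refine ENNReal.ofReal_le_ofReal ?_
  by_contra hcon
  rw [not_le] at hcon
  have hIpos : 0 < I := hκp.trans hcon
  obtain ⟨c, hc⟩ : ∃ c : ℝ, c = fq n p 0 / I := ⟨_, rfl⟩
  have hc0 : 0 < c := by rw [hc]; positivity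
  have hc1 : c < 1 := by rw [hc, div_lt_one hIpos]; exact hcon
  have hcI : c * I = fq n p 0 := by rw [hc]; field_simp
  obtain ⟨ρ', hρ'⟩ := hK.isBounded.subset_closedBall (0 : E n)
  obtain ⟨ρ, hρ0, hKρ⟩ : ∃ ρ : ℝ, 0 ≤ ρ ∧ K ⊆ closedBall 0 ρ :=
    ⟨max ρ' 0, le_max_right _ _, hρ'.trans (closedBall_subset_closedBall (le_max_left _ _))⟩
  have hfin : up μ univ ≠ ⊤ := by
    rw [up_univ, hμ.1]
    exact ENNReal.one_ne_top
  have hlt : ∀ z : E (n + 1), z ∉ emb '' K → rU q (up μ) z ∈ Ioo 0 (fq n q 0) := fun z hz =>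
    rU_up_lt hq0 hq2 hK hμ hκq.le hU hz
  have hmax := max_principle_LL (n := n) (β := p + 1 - n) (by linarith)
    (K' := emb '' K) (isCompact_emb hK) (f := fun z => F (rU q (up μ) z) + (-c) * wR p e ν z)
    (fun z hz => by
      have h1 : ContinuousAt (fun z => F (rU q (up μ) z)) z :=
        ContinuousAt.comp (f := rU q (up μ)) (hF _ (hlt z hz)).1.continuousAt
          (continuousAt_rU (isCompact_emb hK) hfin (up_compl hμ.2) hz)
      exact h1.add (continuousAt_const.mul (continuous_wR hp0 he hK hν).continuousAt))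
    (fun z₀ hz₀ ε hε => by
      obtain ⟨x, hx, rfl⟩ := hz₀
      have h1 : c * I - ε < c * wR p e ν (emb x) := by
        have := mul_le_mul_of_nonneg_left (hW x hx) hc0.le
        linarith
      have h2 : ContinuousAt (fun z => c * wR p e ν z) (emb x) :=
        continuousAt_const.mul (continuous_wR hp0 he hK hν).continuousAt
      filter_upwards [h2.eventually (lt_mem_nhds h1)] with z hz hzK
      have h3 := (hF _ (hlt z hzK)).2.2.2.2.2.2.1
      have h4 : c * I - ε < c * wR p e ν z := hz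
      rw [hcI] at h4
      show F (rU q (up μ) z) + (-c) * wR p e ν z < ε
      linarith)
    (fun ε hε => by
      have h1 : ∀ᶠ t in 𝓝[>] (0 : ℝ), F t < ε := hF0.eventually (gt_mem_nhds hε)
      obtain ⟨δ, hδ0, hδ⟩ := (mem_nhdsGT_iff_exists_Ioo_subset).1 h1
      have hδ0' : (0 : ℝ) < δ := hδ0
      have h2 : Tendsto (fun r : ℝ => (r - ρ) ^ (-q)) atTop (𝓝 0) :=
        (tendsto_rpow_neg_atTop hq0).comp (tendsto_atTop_add_const_right _ (-ρ) tendsto_id)
      obtain ⟨R, hR⟩ := (((h2.eventually (gt_mem_nhds hδ0')).and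
        (eventually_gt_atTop ρ))).exists_forall_of_atTop
      refine ⟨R, fun z hz hzK => ?_⟩
      obtain ⟨h3, h4⟩ := hR ‖z‖ hz
      have h5 := (rU_up_bounds hq0 hK hKρ hμ hzK).2 h4
      have h6 : F (rU q (up μ) z) < ε := hδ ⟨(hlt z hzK).1, h5.trans_lt h3⟩
      have h7 := mul_nonneg hc0.le (wR_bounds hp0 he hK hKρ hν z).1
      show F (rU q (up μ) z) + (-c) * wR p e ν z < ε
      linarith)
    (fun z hz => by
      obtain ⟨a, b, h1, h2⟩ := LL_F hn hp0 hp2 hpq hqn hLc hL hF hK hμ hU hz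
      obtain ⟨a', b', h1', h2'⟩ := LL_wR hp0 he hK hν z
      refine ⟨_, _, hasD2_add h1 (hasD2_smul (-c) h1'), ?_⟩
      rw [LL_add_smul]
      have := mul_nonpos_of_nonneg_of_nonpos hc0.le h2'
      linarith)
  -- a far point
  obtain ⟨d, hd⟩ : ∃ d : ℝ, d = c ^ (2 / p) := ⟨_, rfl⟩
  have hd0 : 0 < d := by rw [hd]; exact Real.rpow_pos_of_pos hc0 _
  have hd1 : d < 1 := by rw [hd]; exact Real.rpow_lt_one hc0.le hc1 (by positivity)
  have hdc : d ^ (p / 2) = c := by
    rw [hd, ← Real.rpow_mul hc0.le, div_mul_div_comm, mul_comm 2 p, div_self (by positivity),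
      Real.rpow_one]
  obtain ⟨R, hR⟩ : ∃ R : ℝ, R = (4 * ρ + 2) / (1 - d) := ⟨_, rfl⟩
  have h1d : 0 < 1 - d := by linarith
  have hRd : (1 - d) * R = 4 * ρ + 2 := by rw [hR]; field_simp
  have hR1 : 4 * ρ + 2 ≤ R := by
    rw [hR, le_div_iff₀ h1d]
    nlinarith
  have hR0 : 0 < R := by linarith
  have hAB : d * (1 + (R + ρ) ^ 2) < (R - ρ) ^ 2 := by
    have e1 : (R - ρ) ^ 2 - d * (1 + (R + ρ) ^ 2) =
        ((1 - d) * R) * R - 2 * ρ * (1 + d) * R + ρ ^ 2 * (1 - d) - d := by ring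
    rw [hRd] at e1
    have e2 : 2 * ρ * (1 + d) * R ≤ 4 * ρ * R := by
      have : 0 ≤ ρ * R := by positivity
      nlinarith
    have e3 : 0 ≤ ρ ^ 2 * (1 - d) := by positivity
    nlinarith
  have hznorm : ‖pt (0 : E n) R‖ = R := by
    have h := norm_sq_eq (pt (0 : E n) R)
    rw [prj_pt, yc_pt, norm_zero] at h
    have h' : ‖pt (0 : E n) R‖ ^ 2 = R ^ 2 := by rw [h]; ring
    exact (pow_left_inj₀ (norm_nonneg _) hR0.le two_ne_zero).1 h'
  have hzK : pt (0 : E n) R ∉ emb '' K := by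
    rw [mem_emb_image]
    rintro ⟨-, h⟩
    rw [yc_pt] at h
    exact hR0.ne' h
  have h1 : F (rU q (up μ) (pt (0 : E n) R)) + (-c) * wR p e ν (pt (0 : E n) R) ≤ 0 :=
    hmax _ hzK
  have h2 := (wR_bounds hp0 he hK hKρ hν (pt (0 : E n) R)).2 (by rw [hznorm]; linarith)
  have h3 := (rU_up_bounds hq0 hK hKρ hμ hzK).1
  have h4 := (hF _ (hlt _ hzK)).2.2.2.2.2.2.2
  rw [hznorm] at h2 h3
  obtain ⟨t, ht⟩ : ∃ t, t = rU q (up μ) (pt (0 : E n) R) := ⟨_, rfl⟩
  rw [← ht] at h1 h3 h4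
  have hRρ : 0 < R + ρ := by linarith
  have hRρ' : 0 < R - ρ := by linarith
  have h0 : 0 < (R + ρ) ^ (-q) := Real.rpow_pos_of_pos hRρ _
  have h5 : t ^ (-2 / q) ≤ (R + ρ) ^ 2 := by
    have h := Real.rpow_le_rpow_of_nonpos h0 h3 (z := -2 / q)
      (by rw [neg_div]; have : 0 < 2 / q := by positivity
          linarith)
    rw [← Real.rpow_mul hRρ.le] at h
    have e : -q * (-2 / q) = 2 := by field_simp
    rw [e] at h
    exact_mod_cast h
  have ht0 : 0 < t := h0.trans_le h3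
  have h6 : (1 + (R + ρ) ^ 2) ^ (-p / 2) ≤ F t := by
    refine le_trans ?_ h4
    refine Real.rpow_le_rpow_of_nonpos ?_ (by linarith) (by rw [neg_div]; linarith)
    have := Real.rpow_pos_of_pos ht0 (-2 / q)
    linarith
  have h7 : c * (R - ρ) ^ (-p) = ((R - ρ) ^ 2 / d) ^ (-p / 2) := by
    rw [Real.div_rpow (by positivity) hd0.le, ← Real.rpow_natCast (R - ρ) 2,
      ← Real.rpow_mul hRρ'.le]
    have e : ((2 : ℕ) : ℝ) * (-p / 2) = -p := by push_cast; ring
    rw [e, neg_div, Real.rpow_neg hd0.le, hdc]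
    field_simp
  have h8 : ((R - ρ) ^ 2 / d) ^ (-p / 2) < (1 + (R + ρ) ^ 2) ^ (-p / 2) := by
    refine Real.rpow_lt_rpow_of_neg (by positivity) ?_ (by rw [neg_div]; linarith)
    rw [lt_div_iff₀ hd0]
    linarith
  have h9 := mul_le_mul_of_nonneg_left h2 hc0.le
  linarith

/-- (T2-H4b) Theorem T2, normalised: `A.exists_meas_of_iSup` with `κ j = kR p (1/(j+1))` (`kR_props`), `kIn_le`; the limit kernel is the Riesz kernel. -/
theorem infEn_le_norm {p q : ℝ} (hn : 1 ≤ n) (hp0 : 0 < p) (hp2 : (n : ℝ) - 2 < p) (hpq : p < q)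
    (hqn : q < n) {K : Set (E n)} (hK : IsCompact K) (hne : K.Nonempty) {μ : Measure (E n)}
    (hμ : PK K μ) (hU : ∀ x, pot q μ x ≤ ENNReal.ofReal (fq n q 0)) :
    infEn p K ≤ ENNReal.ofReal (fq n p 0) := by
  obtain ⟨h1, h2, -, h4, h5⟩ := kR_props (n := n) hp0
  have hpos : ∀ j : ℕ, (0 : ℝ) < 1 / ((j : ℝ) + 1) := fun j => by positivity
  obtain ⟨ν, hν, hle⟩ := exists_meas_of_iSup hK hne (fun j => kR p (1 / ((j : ℝ) + 1)))
    (fun j => h1 _ (hpos j)) (fun j => h2 _ (hpos j)) h4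
  have h6 : infEn p K ≤ en p ν := iInf₂_le ν hν
  refine h6.trans ?_
  have h7 : en p ν = ken (fun x y => ⨆ j : ℕ, (kR p (1 / ((j : ℝ) + 1)) x y : ℝ≥0∞)) ν := by
    unfold en ken
    simp only [h5]
  rw [h7]
  refine hle.trans (iSup_le fun j => ?_)
  exact kIn_le hn hp0 hp2 hpq hqn hK hne hμ hU (hpos j)

end Pool.Agent.Lib.MP_6cd19d_an.T2
end

section

/-!
# C24: comparison of capacities in the plane, `p < 0`

`supEn_cthickening`: `p < 0`, `K` compact nonempty. Let `ν` be a probability measure on `cthickening δ K` (`δ ≤ 1`). Cover the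
compact set `cthickening δ K` by finitely many Borel sets of diameter `≤ δ` (partition) and choose for each a point of
`K` at distance `≤ 2 δ` (`exists_infDist_eq_dist`, `K` compact): a measurable simple map `S` into `K` with
`‖S x - x‖ ≤ 3 δ` on `cthickening δ K`. So `en p ν = ∬ ‖x-y‖^(-p) ≤ ∬ (‖S x - S y‖ + 6 δ)^(-p) ≤ ∬ ‖S x - S y‖^(-p) + ε ≤
supEn p K + ε` for `δ` small (uniform continuity of `t ↦ t^(-p)` on `[0, diam K + 6]`).
`cap_geL`: if `logEn K = ⊤` then `capf 0 K = 0`. Otherwise `capf 0 K = exp (-V)`, `V = (logEn K).toReal - log (diam K + 1)`.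
`-2 < p < 0`: `cmpL_s` for `cthickening δ K` and `s` small with `infEn_log_limit`:
`supEn p B ≤ exp (-p (V+ε)) supEn p (cthickening δ K) ≤ exp (-p (V + ε)) (supEn p K + ε)`; `ε → 0`:
`supEn p B ≤ exp (-p V) supEn p K`; raise to the power `-1/p > 0`: `capf p B ≤ exp V * capf p K`.
`p ≤ -2`: `diamL_s` for `cthickening δ K`, `Metric.diam_cthickening_le`: `2 ≤ exp (V+ε) (diam K + 2 δ)`, so
`2 ≤ exp V * diam K`; then as in `cmp_le_neg_two` (B23b): `capf p B ≤ 2^(-1/s) * 2`, `2^(-1/s) * diam K ≤ capf p K`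
(`s = -p`; `two_point`, `supEn_ball_le`).
`cap_ball_posL`: `two_point`, `supEn_lt_top`. `ratio_BL`: division, `cap0_ball_ge`.
-/

set_option autoImplicit false

open MeasureTheory Set Filter Topology
open scoped ENNReal ContDiff

namespace Pool.Agent.Lib.MP_6cd19d_an.ND

private lemma c24_net {n : ℕ} {K : Set (E n)} (hK : IsCompact K) (hne : K.Nonempty) {δ : ℝ}
    (hδ : 0 < δ) : ∃ S : E n → E n, Measurable S ∧ (∀ x, S x ∈ K) ∧
      ∀ x ∈ Metric.cthickening δ K, dist (S x) x ≤ 2 * δ := by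
  obtain ⟨t, htK, htf, hcov⟩ := hK.finite_cover_balls hδ
  have htne : t.Nonempty := by
    obtain ⟨k, hk⟩ := hne
    have := hcov hk
    simp only [mem_iUnion] at this
    obtain ⟨x, hx, -⟩ := this
    exact ⟨x, hx⟩
  obtain ⟨f, hf⟩ := htf.countable.exists_eq_range htne
  have hN : ∃ N : ℕ, ∀ x ∈ t, ∃ i ≤ N, f i = x := by
    have h1 : ∀ x : t, ∃ i, f i = (x : E n) := by
      rintro ⟨x, hx⟩
      rw [hf] at hx
      exact hx
    choose g hg using h1
    have := htf.fintype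
    refine ⟨Finset.univ.sup g, fun x hx => ⟨g ⟨x, hx⟩, ?_, hg ⟨x, hx⟩⟩⟩
    exact Finset.le_sup (f := g) (Finset.mem_univ _)
  obtain ⟨N, hN⟩ := hN
  refine ⟨SimpleFunc.nearestPt f N, (SimpleFunc.nearestPt f N).measurable, fun x => ?_,
    fun x hx => ?_⟩
  · have h1 : ∃ i, SimpleFunc.nearestPt f N x = f i := by
      refine ⟨SimpleFunc.nearestPtInd f N x, ?_⟩
      simp [SimpleFunc.nearestPt]
    obtain ⟨i, hi⟩ := h1
    rw [hi]
    apply htK
    rw [hf]
    exact mem_range_self i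
  · obtain ⟨k, hkK, hk⟩ := hK.exists_infDist_eq_dist hne x
    have hle : Metric.infDist x K ≤ δ := by
      rw [Metric.mem_cthickening_iff] at hx
      rw [Metric.infDist]
      have := ENNReal.toReal_mono ENNReal.ofReal_ne_top hx
      rwa [ENNReal.toReal_ofReal hδ.le] at this
    have hkt := hcov hkK
    simp only [mem_iUnion] at hkt
    obtain ⟨z, hz, hkz⟩ := hkt
    obtain ⟨i, hi, rfl⟩ := hN z hz
    have h1 := SimpleFunc.edist_nearestPt_le f x hi
    rw [edist_dist, edist_dist, ENNReal.ofReal_le_ofReal_iff dist_nonneg] at h1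
    have h2 : dist (f i) x ≤ dist (f i) k + dist k x := dist_triangle _ _ _
    have h3 : dist (f i) k < δ := by
      rw [dist_comm]
      exact hkz
    have h4 : dist k x ≤ δ := by
      rw [dist_comm, ← hk]
      exact hle
    linarith

theorem supEn_cthickening {n : ℕ} {p : ℝ} (hp : p < 0) {K : Set (E n)} (hK : IsCompact K)
    (hne : K.Nonempty) {ε : ℝ} (hε : 0 < ε) :
    ∃ δ0 : ℝ, 0 < δ0 ∧ ∀ δ, 0 < δ → δ < δ0 →
      supEn p (Metric.cthickening δ K) ≤ supEn p K + ENNReal.ofReal ε := by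
  have hq : 0 < -p := by linarith
  have hcont : Continuous fun t : ℝ => t ^ (-p) := Real.continuous_rpow_const hq.le
  have huc : UniformContinuousOn (fun t : ℝ => t ^ (-p)) (Icc 0 (Metric.diam K + 4)) :=
    isCompact_Icc.uniformContinuousOn_of_continuous hcont.continuousOn
  rw [Metric.uniformContinuousOn_iff] at huc
  obtain ⟨δ1, hδ1, huc⟩ := huc ε hε
  refine ⟨min 1 (δ1 / 5), lt_min one_pos (by linarith), fun δ hδ hδ' => ?_⟩
  have hδ1' : δ < 1 := lt_of_lt_of_le hδ' (min_le_left _ _)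
  have hδ5 : δ < δ1 / 5 := lt_of_lt_of_le hδ' (min_le_right _ _)
  obtain ⟨S, hSm, hSK, hSd⟩ := c24_net hK hne hδ
  have hD : 0 ≤ Metric.diam K := Metric.diam_nonneg
  refine iSup_le fun ν => iSup_le fun hν => ?_
  have : IsProbabilityMeasure ν := ⟨hν.1⟩
  have hae : ∀ᵐ x ∂ν, x ∈ Metric.cthickening δ K := by
    rw [ae_iff]
    exact hν.2
  have hpt : ∀ x ∈ Metric.cthickening δ K, ∀ y ∈ Metric.cthickening δ K,
      edist x y ^ (-p) ≤ edist (S x) (S y) ^ (-p) + ENNReal.ofReal ε := by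
    intro x hx y hy
    rw [edist_dist, edist_dist, ENNReal.ofReal_rpow_of_nonneg dist_nonneg hq.le,
      ENNReal.ofReal_rpow_of_nonneg dist_nonneg hq.le,
      ← ENNReal.ofReal_add (Real.rpow_nonneg dist_nonneg _) hε.le]
    refine ENNReal.ofReal_le_ofReal ?_
    have h1 : dist (S x) (S y) ≤ Metric.diam K :=
      Metric.dist_le_diam_of_mem hK.isBounded (hSK x) (hSK y)
    have h2 : dist x y ≤ dist (S x) (S y) + 4 * δ := by
      have h3 : dist x y ≤ dist x (S x) + dist (S x) (S y) + dist (S y) y :=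
        dist_triangle4 _ _ _ _
      have h4 := hSd x hx
      have h5 := hSd y hy
      rw [dist_comm] at h4
      linarith
    have h3 : dist x y ^ (-p) ≤ (dist (S x) (S y) + 4 * δ) ^ (-p) :=
      Real.rpow_le_rpow dist_nonneg h2 hq.le
    have h4 := huc (dist (S x) (S y) + 4 * δ)
      ⟨by positivity, by linarith⟩ (dist (S x) (S y)) ⟨dist_nonneg, by linarith⟩
      (by
        rw [Real.dist_eq, add_sub_cancel_left, abs_of_pos (by linarith)]
        linarith)
    rw [Real.dist_eq, abs_lt] at h4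
    linarith [h4.2]
  set μ := ν.map S with hμ
  have hμK : PK K μ := by
    constructor
    · rw [hμ, Measure.map_apply hSm MeasurableSet.univ, preimage_univ]
      exact hν.1
    · rw [hμ, Measure.map_apply hSm hK.measurableSet.compl]
      have : S ⁻¹' Kᶜ = ∅ := by
        ext x
        simp [hSK x]
      rw [this, measure_empty]
  have hm2 : Measurable fun z : E n × E n => edist z.1 z.2 ^ (-p) := by
    apply Measurable.pow_const
    exact continuous_edist.measurable
  have hprobμ : IsProbabilityMeasure μ := ⟨hμK.1⟩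
  have hen : en p μ = ∫⁻ x, ∫⁻ y, edist (S x) (S y) ^ (-p) ∂ν ∂ν := by
    unfold en
    have h1 : Measurable fun x : E n => ∫⁻ y, edist x y ^ (-p) ∂μ := hm2.lintegral_prod_right'
    rw [hμ, lintegral_map (hμ ▸ h1) hSm]
    refine lintegral_congr fun x => ?_
    have hmx : Measurable fun y : E n => edist (S x) y ^ (-p) :=
      (measurable_const.edist measurable_id).pow_const _
    rw [lintegral_map hmx hSm]
  calc en p ν ≤ ∫⁻ x, ∫⁻ y, (edist (S x) (S y) ^ (-p) + ENNReal.ofReal ε) ∂ν ∂ν := by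
        unfold en
        refine lintegral_mono_ae ?_
        filter_upwards [hae] with x hx
        refine lintegral_mono_ae ?_
        filter_upwards [hae] with y hy
        exact hpt x hx y hy
    _ = en p μ + ENNReal.ofReal ε := by
        rw [hen]
        have h1 : ∀ x, ∫⁻ y, (edist (S x) (S y) ^ (-p) + ENNReal.ofReal ε) ∂ν =
            (∫⁻ y, edist (S x) (S y) ^ (-p) ∂ν) + ENNReal.ofReal ε := by
          intro x
          rw [lintegral_add_right _ measurable_const, lintegral_const, measure_univ, mul_one]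
        simp only [h1]
        rw [lintegral_add_right _ measurable_const, lintegral_const, measure_univ, mul_one]
    _ ≤ supEn p K + ENNReal.ofReal ε := by
        gcongr
        exact le_iSup₂ (f := fun (μ : Measure (E n)) (_ : PK K μ) => en p μ) μ hμK

private lemma c24_limit {g : ℝ → ℝ} (hg : Continuous g) {A : ℝ} (h : ∀ ε, 0 < ε → A ≤ g ε) :
    A ≤ g 0 := by
  have h1 : Tendsto g (𝓝[>] 0) (𝓝 (g 0)) := (hg.tendsto 0).mono_left nhdsWithin_le_nhds
  refine ge_of_tendsto h1 ?_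
  filter_upwards [self_mem_nhdsWithin] with ε hε
  exact h ε hε

theorem cap_geL {p : ℝ} (hp : p < 0) {K : Set (E 2)} (hK : IsCompact K) :
    capf 0 K * capf p (Metric.closedBall (0 : E 2) 1) ≤ capf p K := by
  have hnn : 0 ≤ capf p K := by
    rw [capf_neg_def hp]
    exact ENNReal.toReal_nonneg
  by_cases hL : logEn K = ⊤
  · rw [capf_zero_def, if_pos hL, zero_mul]
    exact hnn
  have hne : K.Nonempty := by
    by_contra hcon
    rw [not_nonempty_iff_eq_empty] at hcon
    apply hL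
    unfold logEn
    refine iInf₂_eq_top.2 fun μ hμ => ?_
    exfalso
    have h1 := hμ.1
    have h2 := hμ.2
    rw [hcon, compl_empty, h1] at h2
    exact one_ne_zero h2
  have hdiam0 : 0 ≤ Metric.diam K := Metric.diam_nonneg
  set V : ℝ := (logEn K).toReal - Real.log (Metric.diam K + 1) with hV
  have hcap0 : capf 0 K = Real.exp (-V) := by
    rw [capf_zero_def, if_neg hL, hV, neg_sub, sub_eq_add_neg, Real.exp_add,
      Real.exp_log (by linarith)]
  have hq : 0 < -1 / p := div_pos_of_neg_of_neg (by norm_num) hp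
  have hCt : supEn p K < ⊤ := supEn_lt_top hp hK
  have hAt : supEn p (Metric.closedBall (0 : E 2) 1) < ⊤ :=
    supEn_lt_top hp (isCompact_closedBall _ _)
  set A : ℝ := (supEn p (Metric.closedBall (0 : E 2) 1)).toReal with hA
  set C : ℝ := (supEn p K).toReal with hC
  have hA0 : 0 ≤ A := ENNReal.toReal_nonneg
  have hC0 : 0 ≤ C := ENNReal.toReal_nonneg
  have hAe : supEn p (Metric.closedBall (0 : E 2) 1) = ENNReal.ofReal A :=
    (ENNReal.ofReal_toReal hAt.ne).symm
  have hCe : supEn p K = ENNReal.ofReal C := (ENNReal.ofReal_toReal hCt.ne).symm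
  have hcB : capf p (Metric.closedBall (0 : E 2) 1) = A ^ (-1 / p) := by
    rw [capf_neg_def hp, hA, ENNReal.toReal_rpow]
  have hcK : capf p K = C ^ (-1 / p) := by
    rw [capf_neg_def hp, hC, ENNReal.toReal_rpow]
  have hEE : Real.exp (-V) * Real.exp V = 1 := by
    rw [← Real.exp_add]
    simp
  suffices h : A ^ (-1 / p) ≤ Real.exp V * C ^ (-1 / p) by
    rw [hcap0, hcB, hcK]
    calc Real.exp (-V) * A ^ (-1 / p) ≤ Real.exp (-V) * (Real.exp V * C ^ (-1 / p)) := by
          gcongr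
      _ = C ^ (-1 / p) := by rw [← mul_assoc, hEE, one_mul]
  -- for every ε a small thickening and a small exponent
  have hpick : ∀ δ ε : ℝ, 0 < δ → 0 < ε → ∃ s : ℝ, 0 < s ∧
      infEn s (Metric.cthickening δ K) ≠ ⊤ ∧
      ((infEn s (Metric.cthickening δ K)).toReal - 1) / s ≤ V + ε := by
    intro δ ε hδ hε
    obtain ⟨s0, hs0, h⟩ := infEn_log_limit hK hL hδ hε
    have := h (s0 / 2) (by linarith) (by linarith)
    exact ⟨s0 / 2, by linarith, this.1, by rw [hV]; exact this.2⟩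
  rcases le_or_gt p (-2) with hp2 | hp2
  · -- `p ≤ -2`
    have hdiam : 2 ≤ Real.exp V * Metric.diam K := by
      have h1 : 2 ≤ (fun ε : ℝ => Real.exp (V + ε) * (Metric.diam K + 2 * ε)) 0 := by
        have hgc : Continuous fun ε : ℝ => Real.exp (V + ε) * (Metric.diam K + 2 * ε) := by
          fun_prop
        refine c24_limit hgc fun ε hε => ?_
        obtain ⟨s, hs, hI, hle⟩ := hpick ε ε hε hε
        have h2 := diamL_s hs (hK.cthickening (r := ε)) hI
        have h3 : Metric.diam (Metric.cthickening ε K) ≤ Metric.diam K + 2 * ε :=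
          Metric.diam_cthickening_le K hε.le
        refine h2.trans ?_
        have h4 : 0 ≤ Metric.diam (Metric.cthickening ε K) := Metric.diam_nonneg
        gcongr
      simpa using h1
    have hA2 : A ≤ 2 ^ (-p - 1) := by
      have h1 := supEn_ball_le (n := 2) hp2
      rw [hAe] at h1
      exact (ENNReal.ofReal_le_ofReal_iff (by positivity)).1 h1
    have hC2 : (1 / 2) * Metric.diam K ^ (-p) ≤ C := by
      have h1 := two_point (n := 2) hp hK hne
      rw [hCe] at h1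
      exact (ENNReal.ofReal_le_ofReal_iff hC0).1 h1
    have hpne : p ≠ 0 := hp.ne
    have e1 : A ^ (-1 / p) ≤ 2 ^ (1 / p) * 2 := by
      calc A ^ (-1 / p) ≤ ((2 : ℝ) ^ (-p - 1)) ^ (-1 / p) := Real.rpow_le_rpow hA0 hA2 hq.le
        _ = 2 ^ (1 / p + 1) := by
            rw [← Real.rpow_mul (by norm_num)]
            congr 1
            field_simp
            ring
        _ = 2 ^ (1 / p) * 2 := by
            rw [Real.rpow_add (by norm_num), Real.rpow_one]
    have e2 : 2 ^ (1 / p) * Metric.diam K ≤ C ^ (-1 / p) := by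
      calc (2 : ℝ) ^ (1 / p) * Metric.diam K = ((1 / 2) * Metric.diam K ^ (-p)) ^ (-1 / p) := by
            rw [Real.mul_rpow (by norm_num) (Real.rpow_nonneg hdiam0 _),
              ← Real.rpow_mul hdiam0]
            have h5 : -p * (-1 / p) = 1 := by field_simp
            have h6 : (1 / 2 : ℝ) ^ (-1 / p) = 2 ^ (1 / p) := by
              rw [show (1 / 2 : ℝ) = 2⁻¹ by norm_num, Real.inv_rpow (by norm_num),
                ← Real.rpow_neg (by norm_num)]
              congr 1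
              ring
            rw [h5, Real.rpow_one, h6]
        _ ≤ C ^ (-1 / p) := Real.rpow_le_rpow (by positivity) hC2 hq.le
    calc A ^ (-1 / p) ≤ 2 ^ (1 / p) * 2 := e1
      _ ≤ 2 ^ (1 / p) * (Real.exp V * Metric.diam K) := by gcongr
      _ = Real.exp V * (2 ^ (1 / p) * Metric.diam K) := by ring
      _ ≤ Real.exp V * C ^ (-1 / p) := by gcongr
  · -- `-2 < p < 0`
    have hAC : A ≤ Real.exp (-p * V) * C := by
      have h1 : A ≤ (fun ε : ℝ => Real.exp (-p * (V + ε)) * (C + ε)) 0 := by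
        have hgc : Continuous fun ε : ℝ => Real.exp (-p * (V + ε)) * (C + ε) := by
          fun_prop
        refine c24_limit hgc fun ε hε => ?_
        obtain ⟨δ0, hδ0, hth⟩ := supEn_cthickening hp hK hne hε
        have hδ : 0 < δ0 / 2 := by linarith
        obtain ⟨s, hs, hI, hle⟩ := hpick (δ0 / 2) ε hδ hε
        have h2 := cmpL_s hp2 hp hs (hK.cthickening (r := δ0 / 2)) hI
        have h3 := hth (δ0 / 2) hδ (by linarith)
        have h4 : supEn p (Metric.closedBall (0 : E 2) 1) ≤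
            ENNReal.ofReal (Real.exp (-p * (V + ε))) * (supEn p K + ENNReal.ofReal ε) := by
          refine h2.trans (mul_le_mul' (ENNReal.ofReal_le_ofReal ?_) h3)
          rw [Real.exp_le_exp]
          exact mul_le_mul_of_nonneg_left hle (by linarith)
        rw [hAe, hCe, ← ENNReal.ofReal_add hC0 hε.le, ← ENNReal.ofReal_mul (Real.exp_pos _).le]
          at h4
        exact (ENNReal.ofReal_le_ofReal_iff (by positivity)).1 h4
      simpa using h1
    calc A ^ (-1 / p) ≤ (Real.exp (-p * V) * C) ^ (-1 / p) := Real.rpow_le_rpow hA0 hAC hq.le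
      _ = Real.exp V * C ^ (-1 / p) := by
          rw [Real.mul_rpow (Real.exp_pos _).le hC0, ← Real.exp_mul]
          congr 2
          have hpne : p ≠ 0 := hp.ne
          field_simp

theorem cap_ball_posL {p : ℝ} (hp : p < 0) : 0 < capf p (Metric.closedBall (0 : E 2) 1) := by
  rw [capf_neg_def hp]
  have hdiam : 0 < Metric.diam (Metric.closedBall (0 : E 2) 1) := by
    have hb : bv (0 : Fin 2) ∈ Metric.closedBall (0 : E 2) 1 := by
      rw [Metric.mem_closedBall, dist_zero_right, bv]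
      simp
    have h0 : (0 : E 2) ∈ Metric.closedBall (0 : E 2) 1 := by simp
    have := Metric.dist_le_diam_of_mem Metric.isBounded_closedBall hb h0
    rw [dist_zero_right, bv] at this
    have e : ‖(EuclideanSpace.single (0 : Fin 2) (1 : ℝ) : E 2)‖ = 1 := by simp
    rw [e] at this
    linarith
  have h1 := two_point (n := 2) hp (isCompact_closedBall (0 : E 2) 1) ⟨0, by simp⟩
  have h2 := supEn_lt_top (n := 2) hp (isCompact_closedBall (0 : E 2) 1)
  have h3 : 0 < supEn p (Metric.closedBall (0 : E 2) 1) := by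
    refine lt_of_lt_of_le ?_ h1
    rw [ENNReal.ofReal_pos]
    positivity
  have hq : 0 < -1 / p := div_pos_of_neg_of_neg (by norm_num) hp
  exact ENNReal.toReal_pos (ENNReal.rpow_pos h3 h2.ne).ne'
    (ENNReal.rpow_ne_top_of_nonneg hq.le h2.ne)

theorem ratio_BL {p : ℝ} (hp : p < 0) {K : Set (E 2)} (hK : IsCompact K) (hpos : 0 < capf p K) :
    capf 0 K / capf p K ≤
      capf 0 (Metric.closedBall (0 : E 2) 1) / capf p (Metric.closedBall (0 : E 2) 1) := by
  have h1 := cap_geL hp hK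
  have h2 := cap_ball_posL hp
  have h3 := cap0_ball_ge
  rw [div_le_div_iff₀ hpos h2]
  calc capf 0 K * capf p (Metric.closedBall (0 : E 2) 1) ≤ capf p K := h1
    _ = 1 * capf p K := (one_mul _).symm
    _ ≤ capf 0 (Metric.closedBall (0 : E 2) 1) * capf p K :=
        mul_le_mul_of_nonneg_right h3 hpos.le

end Pool.Agent.Lib.MP_6cd19d_an.ND
end

section

/-!
# Part (B) in the form of the frozen statement

For `n ≥ 2` and all `p < n - 2`: the closed unit ball maximises `cap_{n-2} / cap_p`.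
-/

set_option autoImplicit false

open MeasureTheory Set Filter Topology
open scoped ENNReal

namespace Pool.Agent.Lib.MP_6cd19d_an.ND

theorem mainB {n : ℕ} (hn : 2 ≤ n) {p : ℝ} (hp : p < (n : ℝ) - 2)
    {cap : ℝ → Set (E n) → ℝ} (hcap : ∀ s K, cap s K = capf s K)
    {K : Set (E n)} (hK : IsCompact K) (hpos : 0 < cap p K) :
    cap ((n : ℝ) - 2) K / cap p K ≤
      cap ((n : ℝ) - 2) (Metric.closedBall (0 : E n) 1) /
        cap p (Metric.closedBall (0 : E n) 1) := by
  simp only [hcap] at hpos ⊢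
  rcases Nat.lt_or_ge n 3 with h3 | h3
  · have h2 : n = 2 := by omega
    subst h2
    have h0 : (((2 : ℕ) : ℝ) - 2) = 0 := by norm_num
    rw [h0] at hp ⊢
    exact ratio_BL hp hK hpos
  · exact ratio_B h3 hp hK hpos

end Pool.Agent.Lib.MP_6cd19d_an.ND
end

section

/-!
# Theorem T2
-/

set_option autoImplicit false

open MeasureTheory Set Filter Topology Metric
open scoped ENNReal NNReal RealInnerProductSpace

namespace Pool.Agent.Lib.MP_6cd19d_an.T2

open Pool.Agent.Lib.MP_6cd19d_an.ND Pool.Agent.Lib.MP_6cd19d_an.A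

variable {n : ℕ}

/-- one inequality of the scaling -/
private theorem z1_smul_le {s R : ℝ} (hR : 0 < R) (K : Set (E n)) :
    infEn s ((fun x => R • x) '' K) ≤ ENNReal.ofReal (R ^ (-s)) * infEn s K := by
  have hc0 : ENNReal.ofReal (R ^ (-s)) ≠ 0 :=
    (ENNReal.ofReal_pos.2 (Real.rpow_pos_of_pos hR _)).ne'
  have hct : ENNReal.ofReal (R ^ (-s)) ≠ ⊤ := ENNReal.ofReal_ne_top
  have h0 : ENNReal.ofReal (R ^ (-s)) * infEn s K =
      ⨅ (μ : Measure (E n)) (_ : PK K μ), ENNReal.ofReal (R ^ (-s)) * en s μ := by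
    unfold infEn
    rw [ENNReal.mul_iInf_of_ne hc0 hct]
    congr 1
    funext μ
    rw [ENNReal.mul_iInf_of_ne hc0 hct]
  rw [h0]
  refine le_iInf₂ fun μ hμ => ?_
  have hμ' : PK ((fun x => R • x) '' K)
      (μ.map (Homeomorph.smulOfNeZero (α := E n) R hR.ne')) :=
    S1_pk hR.ne' hμ fun x hx => ⟨x, hx, rfl⟩
  refine (iInf₂_le _ hμ').trans (le_of_eq ?_)
  have h2 := (Homeomorph.smulOfNeZero (α := E n) R hR.ne').measurableEmbedding
  have h1 : ∀ x y : E n, (edist (Homeomorph.smulOfNeZero (α := E n) R hR.ne' x)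
      (Homeomorph.smulOfNeZero (α := E n) R hR.ne' y)) ^ (-s) =
      ENNReal.ofReal (R ^ (-s)) * (edist x y) ^ (-s) := by
    intro x y
    show (edist (R • x) (R • y)) ^ (-s) = _
    have h3 : edist (R • x) (R • y) = ENNReal.ofReal R * edist x y := by
      rw [edist_dist, edist_dist, ← ENNReal.ofReal_mul hR.le, dist_smul₀, Real.norm_eq_abs,
        abs_of_pos hR]
    rw [h3, ENNReal.mul_rpow_of_ne_top ENNReal.ofReal_ne_top (edist_ne_top _ _),
      ENNReal.ofReal_rpow_of_pos hR]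
  unfold en
  rw [h2.lintegral_map]
  simp_rw [h2.lintegral_map, h1]
  have h3 : ∀ x, ∫⁻ y, ENNReal.ofReal (R ^ (-s)) * (edist x y) ^ (-s) ∂μ =
      ENNReal.ofReal (R ^ (-s)) * ∫⁻ y, (edist x y) ^ (-s) ∂μ := fun x =>
    lintegral_const_mul' _ _ hct
  simp_rw [h3]
  rw [lintegral_const_mul' _ _ hct]

/-- (T2-Z1a) Scaling of the minimal energy. -/
theorem infEn_smul {s R : ℝ} (hR : 0 < R) (K : Set (E n)) :
    infEn s ((fun x => R • x) '' K) = ENNReal.ofReal (R ^ (-s)) * infEn s K := by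
  refine le_antisymm (z1_smul_le hR K) ?_
  have hR' : 0 < R⁻¹ := inv_pos.2 hR
  have h1 := z1_smul_le (s := s) hR' ((fun x : E n => R • x) '' K)
  have h2 : (fun x : E n => R⁻¹ • x) '' ((fun x : E n => R • x) '' K) = K := by
    rw [← image_comp]
    have h3 : ((fun x : E n => R⁻¹ • x) ∘ fun x : E n => R • x) = id := by
      funext x
      simp [smul_smul, inv_mul_cancel₀ hR.ne']
    rw [h3, image_id]
  rw [h2] at h1
  calc ENNReal.ofReal (R ^ (-s)) * infEn s K
      ≤ ENNReal.ofReal (R ^ (-s)) *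
        (ENNReal.ofReal (R⁻¹ ^ (-s)) * infEn s ((fun x => R • x) '' K)) := by gcongr
    _ = infEn s ((fun x => R • x) '' K) := by
        rw [← mul_assoc, ← ENNReal.ofReal_mul (Real.rpow_nonneg hR.le _),
          Real.inv_rpow hR.le, mul_inv_cancel₀ (Real.rpow_pos_of_pos hR _).ne',
          ENNReal.ofReal_one, one_mul]

/-- the energy constant of the ball is positive -/
private theorem z1_fq_pos {q : ℝ} (hn : 1 ≤ n) (hq0 : 0 < q) (hq2 : (n : ℝ) - 2 < q)
    (hqn : q < n) : 0 < fq n q 0 := by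
  have h1 := (ball_pot hn hq0 hq2 hqn).1
  have h2 := A.infEn_pos hq0 (isCompact_closedBall (0 : E n) 1)
  rw [h1] at h2
  exact ENNReal.ofReal_pos.1 h2

/-- (T2-Z1b) Theorem T2 in terms of energies: for `infEn q K = I < ⊤`, `R = (κq/I)^(1/q)`: `infEn p K ≤ κp R^(-p)`.
Proof.  `μ` from `ND.exists_equilibrium` for the set `K' = R⁻¹ K` (`infEn q K' = R^q I = κq` by `infEn_smul`), potential `≤ infEn q K' = ofReal κq`; `infEn_le_norm` and `infEn_smul` again.
(`infEn q K > 0`: `dist x y ≤ D` on `K`.) -/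
theorem infEn_le {p q : ℝ} (hn : 1 ≤ n) (hp0 : 0 < p) (hp2 : (n : ℝ) - 2 < p) (hpq : p < q)
    (hqn : q < n) {K : Set (E n)} (hK : IsCompact K) (hfin : infEn q K ≠ ⊤) :
    infEn q K ≠ 0 ∧ infEn p K ≤ ENNReal.ofReal
      (fq n p 0 * ((fq n q 0 / (infEn q K).toReal) ^ (1 / q)) ^ (-p)) := by
  have hq0 : 0 < q := hp0.trans hpq
  have hq2 : (n : ℝ) - 2 < q := hp2.trans hpq
  refine ⟨(A.infEn_pos hq0 hK).ne', ?_⟩
  have hκ : 0 < fq n q 0 := z1_fq_pos hn hq0 hq2 hqn
  set I : ℝ := (infEn q K).toReal with hI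
  have hI0 : 0 < I := ENNReal.toReal_pos (A.infEn_pos hq0 hK).ne' hfin
  have hIe : infEn q K = ENNReal.ofReal I := (ENNReal.ofReal_toReal hfin).symm
  set R : ℝ := (fq n q 0 / I) ^ (1 / q) with hRdef
  have hR : 0 < R := Real.rpow_pos_of_pos (div_pos hκ hI0) _
  have hRq : R ^ q = fq n q 0 / I := by
    rw [hRdef, ← Real.rpow_mul (div_pos hκ hI0).le, one_div_mul_cancel hq0.ne', Real.rpow_one]
  have hR' : 0 < R⁻¹ := inv_pos.2 hR
  set K' : Set (E n) := (fun x => R⁻¹ • x) '' K with hK'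
  have hK'c : IsCompact K' := hK.image (continuous_const_smul _)
  have hK'q : infEn q K' = ENNReal.ofReal (fq n q 0) := by
    rw [hK', infEn_smul hR', hIe, ← ENNReal.ofReal_mul (Real.rpow_nonneg hR'.le _),
      Real.inv_rpow hR.le, Real.rpow_neg hR.le, inv_inv, hRq, div_mul_cancel₀ _ hI0.ne']
  have hK'f : infEn q K' ≠ ⊤ := by
    rw [hK'q]
    exact ENNReal.ofReal_ne_top
  obtain ⟨μ, hμ, -, -, hpot⟩ := exists_equilibrium hq0 hq2.le hK'c hK'f
  have hne : K'.Nonempty := by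
    by_contra h
    rw [not_nonempty_iff_eq_empty] at h
    have h1 := hμ.2
    rw [h, compl_empty, hμ.1] at h1
    exact one_ne_zero h1
  have hmain := infEn_le_norm hn hp0 hp2 hpq hqn hK'c hne hμ
    (fun x => (hpot x).trans hK'q.le)
  have hKK : (fun x : E n => R • x) '' K' = K := by
    rw [hK', ← image_comp]
    have h3 : ((fun x : E n => R • x) ∘ fun x : E n => R⁻¹ • x) = id := by
      funext x
      simp [smul_smul, mul_inv_cancel₀ hR.ne']
    rw [h3, image_id]
  calc infEn p K = infEn p ((fun x : E n => R • x) '' K') := by rw [hKK]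
    _ = ENNReal.ofReal (R ^ (-p)) * infEn p K' := infEn_smul hR K'
    _ ≤ ENNReal.ofReal (R ^ (-p)) * ENNReal.ofReal (fq n p 0) := by gcongr
    _ = ENNReal.ofReal (fq n p 0 * R ^ (-p)) := by
        rw [← ENNReal.ofReal_mul (Real.rpow_nonneg hR.le _), mul_comm]

/-- (T2-Z1c) Theorem T2: `cap_q K cap_p B ≤ cap_p K cap_q B` for `n - 2 < p < q < n`, `0 < p`.
If `infEn q K = ⊤` then `capf q K = 0`.  Otherwise `capf_pos_def`, `ball_pot` (`infEn s (BB n) = ofReal (fq n s 0)` for `s = p, q`), `infEn_le`; `infEn p K > 0` (`dist ≤ D` on `K`). -/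
theorem capf_le {p q : ℝ} (hn : 1 ≤ n) (hp0 : 0 < p) (hp2 : (n : ℝ) - 2 < p) (hpq : p < q)
    (hqn : q < n) {K : Set (E n)} (hK : IsCompact K) :
    capf q K * capf p (BB n) ≤ capf p K * capf q (BB n) := by
  have hq0 : 0 < q := hp0.trans hpq
  have hq2 : (n : ℝ) - 2 < q := hp2.trans hpq
  have hpn : p < n := hpq.trans hqn
  have hnn : ∀ {s : ℝ} (_ : 0 < s) (L : Set (E n)), 0 ≤ capf s L := by
    intro s hs L
    rw [capf_pos_def hs]
    exact ENNReal.toReal_nonneg
  by_cases hI : infEn q K = ⊤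
  · have h1 : capf q K = 0 := by
      rw [capf_pos_def hq0, hI, ENNReal.top_rpow_of_neg
        (div_neg_of_neg_of_pos (by norm_num) hq0), ENNReal.toReal_zero]
    rw [h1, zero_mul]
    exact mul_nonneg (hnn hp0 _) (hnn hq0 _)
  have hκq : 0 < fq n q 0 := z1_fq_pos hn hq0 hq2 hqn
  have hκp : 0 < fq n p 0 := z1_fq_pos hn hp0 hp2 hpn
  have hI0 : 0 < (infEn q K).toReal := ENNReal.toReal_pos (A.infEn_pos hq0 hK).ne' hI
  have hle := (infEn_le hn hp0 hp2 hpq hqn hK hI).2
  set I : ℝ := (infEn q K).toReal with hIdef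
  set R : ℝ := (fq n q 0 / I) ^ (1 / q) with hRdef
  have hR : 0 < R := Real.rpow_pos_of_pos (div_pos hκq hI0) _
  have hJf : infEn p K ≠ ⊤ := ne_top_of_le_ne_top ENNReal.ofReal_ne_top hle
  have hJ0 : 0 < infEn p K := A.infEn_pos hp0 hK
  have hJr : (infEn p K).toReal ≤ fq n p 0 * R ^ (-p) := by
    have h1 := ENNReal.toReal_mono ENNReal.ofReal_ne_top hle
    rwa [ENNReal.toReal_ofReal (mul_nonneg hκp.le (Real.rpow_nonneg hR.le _))] at h1
  have e1 : capf q K = I ^ (-1 / q) := by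
    rw [capf_pos_def hq0, ← ENNReal.toReal_rpow]
  have e2 : capf q (BB n) = fq n q 0 ^ (-1 / q) := by
    rw [capf_pos_def hq0, (ball_pot hn hq0 hq2 hqn).1, ← ENNReal.toReal_rpow,
      ENNReal.toReal_ofReal hκq.le]
  have e3 : capf p (BB n) = fq n p 0 ^ (-1 / p) := by
    rw [capf_pos_def hp0, (ball_pot hn hp0 hp2 hpn).1, ← ENNReal.toReal_rpow,
      ENNReal.toReal_ofReal hκp.le]
  have e4 : fq n q 0 ^ (-1 / q) * R = I ^ (-1 / q) := by
    rw [hRdef, Real.div_rpow hκq.le hI0.le, neg_div, Real.rpow_neg hκq.le,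
      Real.rpow_neg hI0.le]
    have h4 : fq n q 0 ^ (1 / q) ≠ 0 := (Real.rpow_pos_of_pos hκq _).ne'
    field_simp
  have h5 : fq n p 0 ^ (-1 / p) * R ≤ capf p K := by
    rw [capf_pos_def hp0, ← ENNReal.toReal_rpow]
    have h2 := Real.rpow_le_rpow_of_nonpos (ENNReal.toReal_pos hJ0.ne' hJf) hJr
      (show -1 / p ≤ 0 from div_nonpos_of_nonpos_of_nonneg (by norm_num) hp0.le)
    have h3 : (fq n p 0 * R ^ (-p)) ^ (-1 / p) = fq n p 0 ^ (-1 / p) * R := by
      rw [Real.mul_rpow hκp.le (Real.rpow_nonneg hR.le _), ← Real.rpow_mul hR.le]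
      have e : -p * (-1 / p) = 1 := by
        field_simp
      rw [e, Real.rpow_one]
    rwa [h3] at h2
  calc capf q K * capf p (BB n)
      = fq n q 0 ^ (-1 / q) * (fq n p 0 ^ (-1 / p) * R) := by
        rw [e1, e3, ← e4]
        ring
    _ ≤ fq n q 0 ^ (-1 / q) * capf p K :=
        mul_le_mul_of_nonneg_left h5 (Real.rpow_nonneg hκq.le _)
    _ = capf p K * capf q (BB n) := by
        rw [e2, mul_comm]

end Pool.Agent.Lib.MP_6cd19d_an.T2
end

section

/-!
# The inequalities for `n ≥ 2` and `q ≥ n - 2`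
-/

set_option autoImplicit false

open MeasureTheory Set Filter Topology Metric
open scoped ENNReal NNReal RealInnerProductSpace

namespace Pool.Agent.Lib.MP_6cd19d_an.Fin

open Pool.Agent.Lib.MP_6cd19d_an.ND Pool.Agent.Lib.MP_6cd19d_an.A

variable {n : ℕ}

/-- Comparison with the Newton capacity (logarithmic in the plane), `p < n - 2`. -/
theorem newton_le (hn : 2 ≤ n) {p : ℝ} (hp : p < (n : ℝ) - 2) {K : Set (E n)}
    (hK : IsCompact K) : capf ((n : ℝ) - 2) K * capf p (BB n) ≤ capf p K := by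
  rcases Nat.lt_or_ge n 3 with h3 | h3
  · have h2 : n = 2 := by omega
    subst h2
    have h0 : (((2 : ℕ) : ℝ) - 2) = 0 := by norm_num
    rw [h0] at hp ⊢
    exact cap_geL hp hK
  · exact cap_ge h3 hp hK

/-- The capacities of the ball are positive. -/
theorem ball_pos (hn : 2 ≤ n) {p : ℝ} (hp : p < (n : ℝ)) : 0 < capf p (BB n) := by
  rcases lt_or_ge 0 p with h0 | h0
  · obtain ⟨h1, h2, h3⟩ := infEn_ball_fin (n := n) (by omega) h0 hp
    rw [capf_pos_def h0, ← ENNReal.toReal_rpow]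
    exact Real.rpow_pos_of_pos h2 _
  · rcases Nat.lt_or_ge n 3 with h3 | h3
    · have h2 : n = 2 := by omega
      subst h2
      rcases h0.lt_or_eq with h0 | h0
      · exact cap_ball_posL h0
      · rw [h0]
        exact lt_of_lt_of_le one_pos cap0_ball_ge
    · have : (3 : ℝ) ≤ n := by exact_mod_cast h3
      exact cap_ball_pos h3 (by linarith)

/-- The Newton capacity of the unit ball is `1`. -/
theorem newton_ball (hn : 2 ≤ n) : capf ((n : ℝ) - 2) (BB n) = 1 := by
  apply le_antisymm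
  · have h1 := newton_le hn (show (n : ℝ) - 3 < (n : ℝ) - 2 by linarith)
      (isCompact_closedBall (0 : E n) 1)
    have h2 := ball_pos hn (show (n : ℝ) - 3 < (n : ℝ) by linarith)
    by_contra hlt
    have h3 := not_le.1 hlt
    have h4 : capf ((n : ℝ) - 3) (BB n) < capf ((n : ℝ) - 2) (BB n) * capf ((n : ℝ) - 3) (BB n) :=
      lt_mul_of_one_lt_left h2 h3
    exact absurd h1 (not_le.2 h4)
  · rcases Nat.lt_or_ge n 3 with h3 | h3
    · have h2 : n = 2 := by omega
      subst h2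
      have h0 : (((2 : ℕ) : ℝ) - 2) = 0 := by norm_num
      rw [h0]
      exact cap0_ball_ge
    · exact cap_ball_ge h3

/-- `cap_q K cap_p B ≤ cap_p K cap_q B` for `n ≥ 2`, `p < q`, `n - 2 ≤ q < n`. -/
theorem ratio_all (hn : 2 ≤ n) {p q : ℝ} (hpq : p < q) (hq : (n : ℝ) - 2 ≤ q) (hqn : q < n)
    {K : Set (E n)} (hK : IsCompact K) :
    capf q K * capf p (BB n) ≤ capf p K * capf q (BB n) := by
  have hn2 : (2 : ℝ) ≤ n := by exact_mod_cast hn
  have hnn : ∀ s : ℝ, ∀ L : Set (E n), 0 ≤ capf s L := fun s L => W3_capf_nonneg s L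
  rcases hq.eq_or_lt with h | h
  · subst h
    rw [newton_ball hn, mul_one]
    exact newton_le hn hpq hK
  · have hA := capf_le_newton hn h hqn hK
    rcases lt_trichotomy p ((n : ℝ) - 2) with h1 | h1 | h1
    · have hB := newton_le hn h1 hK
      calc capf q K * capf p (BB n) ≤ (capf q (BB n) * capf ((n : ℝ) - 2) K) * capf p (BB n) :=
            mul_le_mul_of_nonneg_right hA (hnn _ _)
        _ = capf q (BB n) * (capf ((n : ℝ) - 2) K * capf p (BB n)) := by ring
        _ ≤ capf q (BB n) * capf p K := mul_le_mul_of_nonneg_left hB (hnn _ _)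
        _ = capf p K * capf q (BB n) := mul_comm _ _
    · subst h1
      rw [newton_ball hn, mul_one, mul_comm]
      exact hA
    · exact T2.capf_le (by omega) (by linarith) h1 hpq hqn hK

/-- `vol(K)^(1/n) cap_p B ≤ cap_p K vol(B)^(1/n)` for `n ≥ 2`, `p < n`. -/
theorem vol_all (hn : 2 ≤ n) {p : ℝ} (hpn : p < n) {K : Set (E n)} (hK : IsCompact K) :
    (volume K).toReal ^ (1 / (n : ℝ)) * capf p (BB n) ≤
      capf p K * (volume (BB n)).toReal ^ (1 / (n : ℝ)) := by
  have hB := ball_pos hn hpn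
  have h := vol_le_of_cap (n := n) (by omega) hK (C := capf p K / capf p (BB n))
    (a := max p ((n : ℝ) - 2)) (div_nonneg (W3_capf_nonneg _ _) hB.le)
    (max_lt hpn (by linarith)) (by
      intro q hq1 hq2
      obtain ⟨h1, h2⟩ := max_lt_iff.1 hq1
      have h3 := ratio_all hn h1 h2.le hq2 hK
      rw [← mul_div_assoc, le_div_iff₀ hB, mul_comm (capf q (BB n))]
      exact h3)
  rw [← mul_div_assoc, le_div_iff₀ hB] at h
  rw [mul_comm (capf p K)]
  exact h

end Pool.Agent.Lib.MP_6cd19d_an.Fin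
end
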