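import Mathlib
import Pool.Agent.Lib.MP_6cd19d_an.Energy
import Pool.Agent.Lib.MP_6cd19d_an.ND.B19c

section

/-!
# The quantile transform
-/

set_option autoImplicit false

open MeasureTheory Set Filter Topology ProbabilityTheory
open scoped ENNReal

namespace Pool.Agent.Lib.MP_6cd19d_an

theorem cdf_continuous (ρ : Measure ℝ) [IsProbabilityMeasure ρ] (h : ∀ x, ρ {x} = 0) :
    Continuous (cdf ρ) := by
  rw [continuous_iff_continuousAt]
  intro x
  have hm := monotone_cdf ρ
  rw [hm.continuousAt_iff_leftLim_eq_rightLim]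
  have h1 : (cdf ρ).measure {x} = 0 := by
    rw [measure_cdf]
    exact h x
  rw [StieltjesFunction.measure_singleton, ENNReal.ofReal_eq_zero] at h1
  have h2 : Function.leftLim (cdf ρ) x ≤ cdf ρ x := hm.leftLim_le le_rfl
  rw [StieltjesFunction.rightLim_eq]
  linarith

theorem quantile {ρ μ : Measure ℝ} [IsProbabilityMeasure ρ] [IsProbabilityMeasure μ]
    (h1 : volume ≪ ρ) (h2 : ρ ≪ volume) :
    ∃ τ : ℝ → ℝ, Monotone τ ∧ ρ.map τ = μ := by
  have hat : ∀ x, ρ {x} = 0 := fun x => h2 (by simp)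
  have hF := cdf_continuous ρ hat
  have hFm : StrictMono (cdf ρ) := by
    intro a b hab
    refine lt_of_le_of_ne (monotone_cdf ρ hab.le) ?_
    intro he
    have h3 : ρ (Ioc a b) = 0 := by
      rw [← measure_cdf ρ, StieltjesFunction.measure_Ioc, he]
      simp
    have h4 : volume (Ioc a b) = 0 := h1 h3
    rw [Real.volume_Ioc, ENNReal.ofReal_eq_zero] at h4
    linarith
  have hF0 : ∀ s, 0 < cdf ρ s := fun s =>
    (cdf_nonneg ρ (s - 1)).trans_lt (hFm (by linarith))
  have hF1 : ∀ s, cdf ρ s < 1 := fun s =>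
    (hFm (by linarith : s < s + 1)).trans_le (cdf_le_one ρ (s + 1))
  have hne : ∀ s, {x | cdf ρ s ≤ cdf μ x}.Nonempty := by
    intro s
    obtain ⟨x, hx⟩ := ((tendsto_cdf_atTop μ).eventually (eventually_gt_nhds (hF1 s))).exists
    exact ⟨x, hx.le⟩
  have hbdd : ∀ s, BddBelow {x | cdf ρ s ≤ cdf μ x} := by
    intro s
    obtain ⟨x, hx⟩ := ((tendsto_cdf_atBot μ).eventually (eventually_lt_nhds (hF0 s))).exists
    refine ⟨x, ?_⟩
    intro y hy
    by_contra hcon
    have h3 := monotone_cdf μ (not_le.1 hcon).le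
    have h4 : cdf ρ s ≤ cdf μ y := hy
    linarith
  set τ : ℝ → ℝ := fun s => sInf {x | cdf ρ s ≤ cdf μ x} with hτ
  have hgal : ∀ s x, τ s ≤ x ↔ cdf ρ s ≤ cdf μ x := by
    intro s x
    constructor
    · intro h
      have h3 : ∀ y > x, cdf ρ s ≤ cdf μ y := by
        intro y hy
        obtain ⟨z, hz, hzy⟩ := exists_lt_of_csInf_lt (hne s) (h.trans_lt hy)
        exact le_trans hz (monotone_cdf μ hzy.le)
      have h4 : Tendsto (cdf μ) (𝓝[>] x) (𝓝 (cdf μ x)) :=
        ((cdf μ).right_continuous x).mono_left (nhdsWithin_mono x Ioi_subset_Ici_self)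
      refine ge_of_tendsto h4 ?_
      filter_upwards [self_mem_nhdsWithin] with y hy
      exact h3 y hy
    · intro h
      exact csInf_le (hbdd s) h
  have hmono : Monotone τ := by
    intro s s' hss
    rw [hgal]
    exact (monotone_cdf ρ hss).trans ((hgal s' (τ s')).1 le_rfl)
  refine ⟨τ, hmono, ?_⟩
  have : IsProbabilityMeasure (ρ.map τ) :=
    Measure.isProbabilityMeasure_map hmono.measurable.aemeasurable
  refine Measure.ext_of_Iic _ _ fun x => ?_
  rw [Measure.map_apply hmono.measurable measurableSet_Iic, ← ofReal_cdf μ x]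
  have hpre : τ ⁻¹' Iic x = {s | cdf ρ s ≤ cdf μ x} := by
    ext s
    exact hgal s x
  rw [hpre]
  rcases (cdf_nonneg μ x).eq_or_lt with h0 | h0
  · have : {s | cdf ρ s ≤ cdf μ x} = ∅ := by
      rw [eq_empty_iff_forall_notMem]
      intro s hs
      have h3 : cdf ρ s ≤ cdf μ x := hs
      linarith [hF0 s]
    rw [this, ← h0]
    simp
  rcases (cdf_le_one μ x).eq_or_lt with h1' | h1'
  · have : {s | cdf ρ s ≤ cdf μ x} = univ := by
      rw [eq_univ_iff_forall]
      intro s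
      change cdf ρ s ≤ cdf μ x
      linarith [hF1 s]
    rw [this, h1', measure_univ]
    simp
  · obtain ⟨a, ha⟩ := ((tendsto_cdf_atBot ρ).eventually (eventually_lt_nhds h0)).exists
    obtain ⟨b, hb⟩ := ((tendsto_cdf_atTop ρ).eventually (eventually_gt_nhds h1')).exists
    obtain ⟨s0, hs0⟩ := intermediate_value_univ a b hF ⟨ha.le, hb.le⟩
    have : {s | cdf ρ s ≤ cdf μ x} = Iic s0 := by
      ext s
      change cdf ρ s ≤ cdf μ x ↔ s ≤ s0
      rw [← hs0, hFm.le_iff_le]
    rw [this, ← hs0, ofReal_cdf]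

end Pool.Agent.Lib.MP_6cd19d_an
end

section

section

/-!
# The comparison predicate in terms of energies
-/

set_option autoImplicit false

open MeasureTheory Set Filter Topology
open scoped ENNReal

namespace Pool.Agent.Lib.MP_6cd19d_an

/-- The integrand of the energy of exponent `p ≠ 0`. -/
noncomputable def HP (p : ℝ) (τ : ℝ → ℝ) (s t : ℝ) : ℝ≥0∞ :=
  ENNReal.ofReal ((Real.sigmoid t - Real.sigmoid s) ^ (1 + p)) *
    ENNReal.ofReal (τ t - τ s) ^ (-p)

/-- The integrand of the logarithmic energy. -/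
noncomputable def H0 (d : ℝ) (τ : ℝ → ℝ) (s t : ℝ) : ℝ≥0∞ :=
  ENNReal.ofReal (Real.sigmoid t - Real.sigmoid s) *
    (if τ s = τ t then ⊤ else ENNReal.ofReal (Real.log ((d + 1) / (τ t - τ s))))

theorem measurable_HP (p : ℝ) {τ : ℝ → ℝ} (hτ : Monotone τ) :
    Measurable (Function.uncurry (HP p τ)) := by
  have h1 : Measurable (fun x : ℝ × ℝ => τ x.2 - τ x.1) :=
    (hτ.measurable.comp measurable_snd).sub (hτ.measurable.comp measurable_fst)
  have h2 : Measurable (fun x : ℝ × ℝ => Real.sigmoid x.2 - Real.sigmoid x.1) :=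
    (measurable_sigmoid.comp measurable_snd).sub (measurable_sigmoid.comp measurable_fst)
  exact (h2.pow_const (1 + p)).ennreal_ofReal.mul (h1.ennreal_ofReal.pow_const (-p))

theorem measurable_H0 (d : ℝ) {τ : ℝ → ℝ} (hτ : Monotone τ) :
    Measurable (Function.uncurry (H0 d τ)) := by
  have h1 : Measurable (fun x : ℝ × ℝ => τ x.2 - τ x.1) :=
    (hτ.measurable.comp measurable_snd).sub (hτ.measurable.comp measurable_fst)
  have h2 : Measurable (fun x : ℝ × ℝ => Real.sigmoid x.2 - Real.sigmoid x.1) :=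
    (measurable_sigmoid.comp measurable_snd).sub (measurable_sigmoid.comp measurable_fst)
  refine h2.ennreal_ofReal.mul (Measurable.ite ?_ measurable_const ?_)
  · exact measurableSet_eq_fun (hτ.measurable.comp measurable_fst)
      (hτ.measurable.comp measurable_snd)
  · exact (Real.measurable_log.comp (measurable_const.div h1)).ennreal_ofReal

section

variable {p M : ℝ} {τ : ℝ → ℝ} {a b : ℝ}

theorem W_HT_ne_top (hp : -1 < p) (hp1 : p < 1) (hM : 0 < M) (hτ : Monotone τ)
    (ha : Tendsto τ atBot (𝓝 a)) (hb : Tendsto τ atTop (𝓝 b)) : W p (HT M τ) ≠ ⊤ := by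
  rw [W_HT hM hτ ha hb]
  exact ENNReal.mul_ne_top (Z_ne_top hp hp1) ENNReal.ofReal_ne_top

theorem good_iff_pos (hp : 0 < p) (hp1 : p < 1) (hM : 0 < M) (hτ : Monotone τ)
    (ha : Tendsto τ atBot (𝓝 a)) (hb : Tendsto τ atTop (𝓝 b)) :
    Good p M τ ↔ W p (HP p τ) ≤ Z p * ENNReal.ofReal M ^ (-p) := by
  have hZ := Z_ne_top (by linarith : -1 < p) hp1
  have hT := W_HT_ne_top (by linarith : -1 < p) hp1 hM hτ ha hb
  have hid : ∀ s t, s < t → ENNReal.ofReal (M ^ p / p) * HP p τ s t + HT M τ s t =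
      HJ p M τ s t + ENNReal.ofReal (1 / p + 1) * HX s t := by
    intro s t hst
    have hx := sigmoid_sub_pos hst
    have hb0 : 0 ≤ τ t - τ s := sub_nonneg.2 (hτ hst.le)
    unfold HP HT HJ HX J
    set x := Real.sigmoid t - Real.sigmoid s with hxdef
    have hMp : 0 < M ^ p := Real.rpow_pos_of_pos hM p
    rcases hb0.eq_or_lt with h | h
    · rw [← h]
      rw [if_pos ⟨by simp, hp.le⟩, ENNReal.ofReal_zero, ENNReal.zero_rpow_of_neg (by linarith),
        ENNReal.mul_top, ENNReal.mul_top]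
      · simp
      · rw [ne_eq, ENNReal.ofReal_eq_zero, not_le]
        positivity
      · rw [ne_eq, ENNReal.ofReal_eq_zero, not_le]
        positivity
    · have hbM : 0 < (τ t - τ s) / M := div_pos h hM
      rw [if_neg (fun h' => hbM.ne' h'.1), ENNReal.ofReal_rpow_of_pos h,
        ← ENNReal.ofReal_mul (by positivity), ← ENNReal.ofReal_mul (by positivity),
        ← ENNReal.ofReal_mul (by positivity),
        ← ENNReal.ofReal_add (by positivity) hbM.le,
        ← ENNReal.ofReal_add (J_nonneg (by linarith) hx hbM.le (fun h' => hbM.ne' h'.1))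
          (by positivity)]
      congr 1
      unfold psi
      rw [if_neg hp.ne']
      set β := (τ t - τ s) / M with hβ
      have e0 : τ t - τ s = β * M := by rw [hβ]; field_simp
      rw [e0, Real.mul_rpow hbM.le hM.le, Real.div_rpow hbM.le hx.le, Real.rpow_add hx,
        Real.rpow_one, Real.rpow_neg hM.le, Real.rpow_neg hbM.le, Real.rpow_neg hx.le]
      have h1 := Real.rpow_pos_of_pos hx p
      have h2 := Real.rpow_pos_of_pos hbM p
      field_simp
      ring
  have hW : ENNReal.ofReal (M ^ p / p) * W p (HP p τ) + W p (HT M τ) =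
      W p (HJ p M τ) + ENNReal.ofReal (1 / p + 1) * Z p := by
    have h1 := W_congr (p := p) hid
    have hm1 : Measurable (Function.uncurry fun s t => ENNReal.ofReal (M ^ p / p) * HP p τ s t) :=
      (measurable_HP p hτ).const_mul _
    rw [W_add hm1, W_add (measurable_HJ p M hτ), W_const_mul (measurable_HP p hτ),
      W_const_mul measurable_HX] at h1
    rw [h1, ← W_sigmoid p]
    rfl
  have hsplit : ENNReal.ofReal (1 / p + 1) * Z p = Z p + ENNReal.ofReal (1 / p) * Z p := by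
    rw [ENNReal.ofReal_add (by positivity) (by norm_num), ENNReal.ofReal_one, add_mul, one_mul,
      add_comm]
  have hfin : ENNReal.ofReal (1 / p) * Z p ≠ ⊤ := ENNReal.mul_ne_top ENNReal.ofReal_ne_top hZ
  have hMpow : ENNReal.ofReal M ^ (-p) = (ENNReal.ofReal (M ^ p))⁻¹ := by
    rw [ENNReal.rpow_neg, ENNReal.ofReal_rpow_of_pos hM]
  have hMp : 0 < M ^ p := Real.rpow_pos_of_pos hM p
  have h1 : Good p M τ ↔ ENNReal.ofReal (M ^ p / p) * W p (HP p τ) ≤
      ENNReal.ofReal (1 / p) * Z p := by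
    unfold Good
    rw [← ENNReal.add_le_add_iff_right hfin, add_assoc, ← hsplit, ← hW, add_comm (W p (HT M τ)),
      ENNReal.add_le_add_iff_right hT]
  rw [h1, hMpow, ← div_eq_mul_inv, ENNReal.le_div_iff_mul_le
    (Or.inl (by rw [ne_eq, ENNReal.ofReal_eq_zero, not_le]; exact hMp))
    (Or.inl ENNReal.ofReal_ne_top)]
  have e1 : ENNReal.ofReal (M ^ p / p) = ENNReal.ofReal (1 / p) * ENNReal.ofReal (M ^ p) := by
    rw [← ENNReal.ofReal_mul (by positivity)]
    congr 1
    ring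
  rw [e1, mul_assoc, ENNReal.mul_le_mul_iff_right
    (by rw [ne_eq, ENNReal.ofReal_eq_zero, not_le]; positivity) ENNReal.ofReal_ne_top,
    mul_comm]

theorem good_iff_neg (hp : -1 < p) (hp0 : p < 0) (hM : 0 < M) (hτ : Monotone τ)
    (ha : Tendsto τ atBot (𝓝 a)) (hb : Tendsto τ atTop (𝓝 b)) :
    Good p M τ ↔ Z p * ENNReal.ofReal M ^ (-p) ≤ W p (HP p τ) := by
  have hZ := Z_ne_top hp (by linarith : p < 1)
  have hT := W_HT_ne_top hp (by linarith : p < 1) hM hτ ha hb
  have hr0 : 0 < -p := by linarith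
  have hMp : 0 < M ^ (-p) := Real.rpow_pos_of_pos hM (-p)
  have hid : ∀ s t, s < t → HJ p M τ s t + ENNReal.ofReal ((M ^ (-p))⁻¹ / (-p)) * HP p τ s t =
      ENNReal.ofReal (1 / (-p) - 1) * HX s t + HT M τ s t := by
    intro s t hst
    have hx := sigmoid_sub_pos hst
    have hb0 : 0 ≤ τ t - τ s := sub_nonneg.2 (hτ hst.le)
    unfold HP HT HJ HX J
    set x := Real.sigmoid t - Real.sigmoid s with hxdef
    have hbM : 0 ≤ (τ t - τ s) / M := div_nonneg hb0 hM.le
    have hneg : ¬ ((τ t - τ s) / M = 0 ∧ 0 ≤ p) := fun h => by linarith [h.2]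
    have h1p : (0 : ℝ) ≤ 1 / (-p) - 1 := by
      rw [sub_nonneg, le_div_iff₀ hr0]
      linarith
    have hrp : (0 : ℝ) ≤ x ^ (1 + p) := Real.rpow_nonneg hx.le _
    rw [if_neg hneg, ENNReal.ofReal_rpow_of_nonneg hb0 hr0.le,
      ← ENNReal.ofReal_mul hrp, ← ENNReal.ofReal_mul (by positivity),
      ← ENNReal.ofReal_mul h1p,
      ← ENNReal.ofReal_add (J_nonneg hp.le hx hbM hneg)
        (mul_nonneg (by positivity) (mul_nonneg hrp (Real.rpow_nonneg hb0 _))),
      ← ENNReal.ofReal_add (mul_nonneg h1p hx.le) hbM]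
    congr 1
    unfold psi
    rw [if_neg hp0.ne]
    set β := (τ t - τ s) / M with hβ
    have e0 : τ t - τ s = β * M := by rw [hβ]; field_simp
    rw [e0, Real.mul_rpow hbM hM.le, Real.div_rpow hbM hx.le, Real.rpow_add hx, Real.rpow_one]
    have h1 := Real.rpow_pos_of_pos hx (-p)
    have e1 : x ^ p = (x ^ (-p))⁻¹ := by
      rw [Real.rpow_neg hx.le, inv_inv]
    rw [e1]
    have hpne : p ≠ 0 := hp0.ne
    field_simp
    ring
  have hW : W p (HJ p M τ) + ENNReal.ofReal ((M ^ (-p))⁻¹ / (-p)) * W p (HP p τ) =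
      ENNReal.ofReal (1 / (-p) - 1) * Z p + W p (HT M τ) := by
    have h1 := W_congr (p := p) hid
    have hm1 : Measurable (Function.uncurry fun s t => ENNReal.ofReal (1 / (-p) - 1) * HX s t) :=
      measurable_HX.const_mul _
    rw [W_add (measurable_HJ p M hτ), W_add hm1, W_const_mul (measurable_HP p hτ),
      W_const_mul measurable_HX] at h1
    rw [h1, ← W_sigmoid p]
    rfl
  have hfinR : ENNReal.ofReal (1 / (-p) - 1) * Z p + W p (HT M τ) ≠ ⊤ :=
    ENNReal.add_ne_top.2 ⟨ENNReal.mul_ne_top ENNReal.ofReal_ne_top hZ, hT⟩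
  have hfin : ENNReal.ofReal ((M ^ (-p))⁻¹ / (-p)) * W p (HP p τ) ≠ ⊤ :=
    ne_top_of_le_ne_top hfinR (hW ▸ le_add_self)
  have h1p : (0 : ℝ) ≤ 1 / (-p) - 1 := by
    rw [sub_nonneg, le_div_iff₀ hr0]
    linarith
  have hsplit : ENNReal.ofReal (1 / (-p) - 1) * Z p + Z p = ENNReal.ofReal (1 / (-p)) * Z p := by
    have : ENNReal.ofReal (1 / (-p)) = ENNReal.ofReal (1 / (-p) - 1) + 1 := by
      rw [← ENNReal.ofReal_one, ← ENNReal.ofReal_add h1p (by norm_num)]
      congr 1
      ring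
    rw [this, add_mul, one_mul]
  have h1 : Good p M τ ↔ ENNReal.ofReal (1 / (-p)) * Z p ≤
      ENNReal.ofReal ((M ^ (-p))⁻¹ / (-p)) * W p (HP p τ) := by
    unfold Good
    rw [← ENNReal.add_le_add_iff_right hfin]
    have e1 : W p (HJ p M τ) + Z p + ENNReal.ofReal ((M ^ (-p))⁻¹ / (-p)) * W p (HP p τ) =
        W p (HT M τ) + ENNReal.ofReal (1 / (-p)) * Z p := by
      calc W p (HJ p M τ) + Z p + ENNReal.ofReal ((M ^ (-p))⁻¹ / (-p)) * W p (HP p τ)
          = (W p (HJ p M τ) + ENNReal.ofReal ((M ^ (-p))⁻¹ / (-p)) * W p (HP p τ)) + Z p := by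
            ring
        _ = _ := by
            rw [hW, ← hsplit]
            ring
    rw [e1, ENNReal.add_le_add_iff_left hT]
  have e2 : ENNReal.ofReal ((M ^ (-p))⁻¹ / (-p)) =
      ENNReal.ofReal (1 / (-p)) * (ENNReal.ofReal (M ^ (-p)))⁻¹ := by
    rw [← ENNReal.ofReal_inv_of_pos hMp, ← ENNReal.ofReal_mul (by positivity)]
    congr 1
    ring
  rw [h1, e2, mul_assoc, ENNReal.mul_le_mul_iff_right
    (by rw [ne_eq, ENNReal.ofReal_eq_zero, not_le]; positivity) ENNReal.ofReal_ne_top,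
    ENNReal.ofReal_rpow_of_pos hM, mul_comm _ (W p (HP p τ)), ← div_eq_mul_inv,
    ENNReal.le_div_iff_mul_le
    (Or.inl (by rw [ne_eq, ENNReal.ofReal_eq_zero, not_le]; exact hMp))
    (Or.inl ENNReal.ofReal_ne_top)]

theorem good_iff_zero {d : ℝ} (hM : 0 < M) (hMd : M ≤ d + 1) (hτ : Monotone τ)
    (hd : ∀ s t, τ t - τ s ≤ d)
    (ha : Tendsto τ atBot (𝓝 a)) (hb : Tendsto τ atTop (𝓝 b)) :
    Good 0 M τ ↔ W 0 (H0 d τ) ≤ ENNReal.ofReal (Real.log ((d + 1) / M)) * Z 0 + W 0 HL := by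
  have hZ := Z_ne_top (by norm_num : (-1 : ℝ) < 0) (by norm_num : (0 : ℝ) < 1)
  have hT := W_HT_ne_top (by norm_num : (-1 : ℝ) < 0) (by norm_num : (0 : ℝ) < 1) hM hτ ha hb
  have hd0 : 0 < d + 1 := hM.trans_le hMd
  have hl0 : 0 ≤ Real.log ((d + 1) / M) := Real.log_nonneg (by rwa [le_div_iff₀ hM, one_mul])
  have hid : ∀ s t, s < t → H0 d τ s t + HT M τ s t =
      HJ 0 M τ s t + (ENNReal.ofReal (1 + Real.log ((d + 1) / M)) * HX s t + HL s t) := by
    intro s t hst
    have hx := sigmoid_sub_pos hst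
    have hx1 : Real.sigmoid t - Real.sigmoid s ≤ 1 := by
      have := Real.sigmoid_lt_one t
      have := Real.sigmoid_pos s
      linarith
    have hb0 : 0 ≤ τ t - τ s := sub_nonneg.2 (hτ hst.le)
    unfold H0 HT HJ HX HL J
    set x := Real.sigmoid t - Real.sigmoid s with hxdef
    rcases hb0.eq_or_lt with h | h
    · have h' : τ s = τ t := by linarith
      have h'' : (τ t - τ s) / M = 0 ∧ (0 : ℝ) ≤ 0 := ⟨by rw [← h]; simp, le_rfl⟩
      rw [if_pos h', if_pos h'', ENNReal.mul_top]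
      · simp
      · rw [ne_eq, ENNReal.ofReal_eq_zero, not_le]
        exact hx
    · have hbM : 0 < (τ t - τ s) / M := div_pos h hM
      have hne : ¬ τ s = τ t := fun h' => by rw [h'] at h; simp at h
      have hlog : 0 ≤ Real.log ((d + 1) / (τ t - τ s)) := by
        refine Real.log_nonneg ?_
        rw [le_div_iff₀ h, one_mul]
        linarith [hd s t]
      have hxl : 0 ≤ -(x * Real.log x) := by
        have := Real.log_nonpos hx.le hx1
        have := mul_nonpos_of_nonneg_of_nonpos hx.le this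
        linarith
      have h1l : 0 ≤ 1 + Real.log ((d + 1) / M) := by linarith
      rw [if_neg hne, if_neg (fun h' => hbM.ne' h'.1), ← ENNReal.ofReal_mul hx.le,
        ← ENNReal.ofReal_add (mul_nonneg hx.le hlog) hbM.le, ← ENNReal.ofReal_mul h1l,
        ← ENNReal.ofReal_add (mul_nonneg h1l hx.le) hxl,
        ← ENNReal.ofReal_add (J_nonneg (by norm_num) hx hbM.le (fun h' => hbM.ne' h'.1))
          (add_nonneg (mul_nonneg h1l hx.le) hxl)]
      congr 1
      unfold psi
      rw [if_pos rfl]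
      set β := (τ t - τ s) / M with hβ
      have e0 : τ t - τ s = β * M := by rw [hβ]; field_simp
      rw [e0, Real.log_div hd0.ne' (by positivity), Real.log_div hd0.ne' hM.ne',
        Real.log_mul hbM.ne' hM.ne', Real.log_div hbM.ne' hx.ne']
      ring
  have hW : W 0 (H0 d τ) + W 0 (HT M τ) =
      W 0 (HJ 0 M τ) + (ENNReal.ofReal (1 + Real.log ((d + 1) / M)) * Z 0 + W 0 HL) := by
    have h1 := W_congr (p := 0) hid
    have hm1 : Measurable (Function.uncurry fun s t =>
        ENNReal.ofReal (1 + Real.log ((d + 1) / M)) * HX s t) := measurable_HX.const_mul _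
    rw [W_add (measurable_H0 d hτ), W_add (measurable_HJ 0 M hτ), W_add hm1,
      W_const_mul measurable_HX] at h1
    rw [h1, ← W_sigmoid 0]
    rfl
  have hfin : ENNReal.ofReal (Real.log ((d + 1) / M)) * Z 0 + W 0 HL ≠ ⊤ :=
    ENNReal.add_ne_top.2 ⟨ENNReal.mul_ne_top ENNReal.ofReal_ne_top hZ, W_HL_ne_top⟩
  unfold Good
  rw [← ENNReal.add_le_add_iff_right hfin]
  have e1 : W 0 (HJ 0 M τ) + Z 0 + (ENNReal.ofReal (Real.log ((d + 1) / M)) * Z 0 + W 0 HL) =
      W 0 (HT M τ) + W 0 (H0 d τ) := by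
    rw [add_comm (W 0 (HT M τ)), hW, ENNReal.ofReal_add (by norm_num) hl0, ENNReal.ofReal_one]
    ring
  rw [e1, ENNReal.add_le_add_iff_left hT]

end

end Pool.Agent.Lib.MP_6cd19d_an
end

section

/-!
# Capacities of compact sets of the line, in terms of monotone functions
-/

set_option autoImplicit false

open MeasureTheory Set Filter Topology
open scoped ENNReal

namespace Pool.Agent.Lib.MP_6cd19d_an

/-- The Euclidean space of dimension one. -/
abbrev E1 : Type := EuclideanSpace ℝ (Fin 1)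

/-- The capacities. -/
noncomputable def capf (s : ℝ) (K : Set E1) : ℝ :=
  if 0 < s then
    ((⨅ (μ : Measure E1) (_ : μ univ = 1 ∧ μ Kᶜ = 0),
      ∫⁻ x, ∫⁻ y, (edist x y) ^ (-s) ∂μ ∂μ) ^ (-1 / s)).toReal
  else if s = 0 then
    (if (⨅ (μ : Measure E1) (_ : μ univ = 1 ∧ μ Kᶜ = 0),
        ∫⁻ x, ∫⁻ y, (if x = y then (⊤ : ℝ≥0∞) else
          ENNReal.ofReal (Real.log ((Metric.diam K + 1) / dist x y))) ∂μ ∂μ) = ⊤
      then 0
      else (Metric.diam K + 1) * Real.exp (-((⨅ (μ : Measure E1)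
        (_ : μ univ = 1 ∧ μ Kᶜ = 0),
        ∫⁻ x, ∫⁻ y, (if x = y then (⊤ : ℝ≥0∞) else
          ENNReal.ofReal (Real.log ((Metric.diam K + 1) / dist x y))) ∂μ ∂μ).toReal)))
  else
    ((⨆ (μ : Measure E1) (_ : μ univ = 1 ∧ μ Kᶜ = 0),
      ∫⁻ x, ∫⁻ y, (edist x y) ^ (-s) ∂μ ∂μ) ^ (-1 / s)).toReal

/-- The isometry of the line with the Euclidean space of dimension one. -/
noncomputable def io (r : ℝ) : E1 := EuclideanSpace.single 0 r

theorem io_coord (x : E1) : io (x 0) = x := by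
  unfold io
  ext i
  have : i = 0 := Subsingleton.elim _ _
  subst this
  simp

theorem coord_io (r : ℝ) : (io r) 0 = r := by
  unfold io
  simp

theorem dist_io (a b : ℝ) : dist (io a) (io b) = dist a b := by
  unfold io
  simp

theorem edist_io (a b : ℝ) : edist (io a) (io b) = edist a b := by
  unfold io
  simp

theorem isometry_io : Isometry io := fun a b => edist_io a b

theorem measurable_io : Measurable io := isometry_io.continuous.measurable

theorem measurable_coord : Measurable (fun x : E1 => x 0) := by fun_prop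

/-- Monotone functions with values in `K`. -/
def TK (K : Set E1) (τ : ℝ → ℝ) : Prop := Monotone τ ∧ ∀ᵐ s, io (τ s) ∈ K

theorem TK.sub_le {K : Set E1} (hK : IsCompact K) {τ : ℝ → ℝ} (h : TK K τ) (s t : ℝ) :
    τ t - τ s ≤ Metric.diam K := by
  have hfreq : ∀ a b : ℝ, a < b → ∃ x ∈ Ioo a b, io (τ x) ∈ K := by
    intro a b hab
    by_contra hcon
    push Not at hcon
    have h1 : Ioo a b ⊆ {x | ¬ io (τ x) ∈ K} := fun x hx => hcon x hx
    have h2 : volume (Ioo a b) = 0 := measure_mono_null h1 h.2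
    rw [Real.volume_Ioo, ENNReal.ofReal_eq_zero] at h2
    linarith
  obtain ⟨s', hs', hs'K⟩ := hfreq (s - 1) s (by linarith)
  obtain ⟨t', ht', ht'K⟩ := hfreq t (t + 1) (by linarith)
  have h1 : τ t - τ s ≤ τ t' - τ s' := by
    have := h.1 hs'.2.le
    have := h.1 ht'.1.le
    linarith
  refine h1.trans ?_
  have h2 := Metric.dist_le_diam_of_mem hK.isBounded ht'K hs'K
  rw [dist_io, Real.dist_eq] at h2
  exact (le_abs_self _).trans h2

theorem TK.limits {K : Set E1} (hK : IsCompact K) {τ : ℝ → ℝ} (h : TK K τ) :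
    ∃ a b, Tendsto τ atBot (𝓝 a) ∧ Tendsto τ atTop (𝓝 b) ∧ b - a ≤ Metric.diam K := by
  have hbA : BddAbove (range τ) := by
    refine ⟨τ 0 + Metric.diam K, ?_⟩
    rintro _ ⟨x, rfl⟩
    have := h.sub_le hK 0 x
    linarith
  have hbB : BddBelow (range τ) := by
    refine ⟨τ 0 - Metric.diam K, ?_⟩
    rintro _ ⟨x, rfl⟩
    have := h.sub_le hK x 0
    linarith
  have ha := tendsto_atBot_ciInf h.1 hbB
  have hb := tendsto_atTop_ciSup h.1 hbA
  refine ⟨_, _, ha, hb, ?_⟩
  rw [sub_le_iff_le_add']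
  refine ciSup_le fun t => ?_
  rw [← sub_le_iff_le_add]
  refine le_ciInf fun s => ?_
  have := h.sub_le hK s t
  linarith

/-- Every probability measure on `K` is the image of the reference measure. -/
theorem exists_TK {p : ℝ} (hp : -1 < p) {K : Set E1} (hK : IsCompact K) {μ : Measure E1}
    (h1 : μ univ = 1) (h2 : μ Kᶜ = 0) :
    ∃ τ, TK K τ ∧ (rho p).map (fun s => io (τ s)) = μ := by
  have hμ : IsProbabilityMeasure μ := ⟨h1⟩
  have hρ := rho_prob hp
  have hμ' : IsProbabilityMeasure (μ.map (fun x : E1 => x 0)) :=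
    Measure.isProbabilityMeasure_map measurable_coord.aemeasurable
  obtain ⟨τ, hτ, hmap⟩ := quantile (ρ := rho p) (μ := μ.map (fun x : E1 => x 0)) (ac_rho hp)
    (rho_ac p)
  have hm : Measurable (fun s => io (τ s)) := measurable_io.comp hτ.measurable
  have hmap' : (rho p).map (fun s => io (τ s)) = μ := by
    have e1 : (fun s => io (τ s)) = io ∘ τ := rfl
    rw [e1, ← Measure.map_map measurable_io hτ.measurable, hmap,
      Measure.map_map measurable_io measurable_coord]
    have e2 : (io ∘ fun x : E1 => x 0) = id := by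
      funext x
      exact io_coord x
    rw [e2, Measure.map_id]
  refine ⟨τ, ⟨hτ, ?_⟩, hmap'⟩
  rw [← hmap', Measure.map_apply hm hK.isClosed.measurableSet.compl] at h2
  exact ac_rho hp h2

theorem TK.map_mem {p : ℝ} (hp : -1 < p) {K : Set E1} (hK : IsCompact K) {τ : ℝ → ℝ}
    (h : TK K τ) : ((rho p).map (fun s => io (τ s))) univ = 1 ∧
      ((rho p).map (fun s => io (τ s))) Kᶜ = 0 := by
  have hρ := rho_prob hp
  have hm : Measurable (fun s => io (τ s)) := measurable_io.comp h.1.measurable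
  constructor
  · rw [Measure.map_apply hm MeasurableSet.univ, preimage_univ, measure_univ]
  · rw [Measure.map_apply hm hK.isClosed.measurableSet.compl]
    exact rho_ac p h.2

/-- The energies of the image of the reference measure. -/
theorem energy_edist {p : ℝ} {τ : ℝ → ℝ} (hτ : Monotone τ) :
    ∫⁻ x, ∫⁻ y, (edist x y) ^ (-p) ∂((rho p).map (fun s => io (τ s)))
      ∂((rho p).map (fun s => io (τ s))) = (C p)⁻¹ * (C p)⁻¹ * (2 * W p (HP p τ)) := by
  have hm : Measurable (fun s => io (τ s)) := measurable_io.comp hτ.measurable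
  rw [energy_map (k := fun x y : E1 => (edist x y) ^ (-p)) (measurable_edist.pow_const (-p))
    (fun x y => by rw [edist_comm]) hm]
  congr 2
  refine W_congr ?_
  intro s t hst
  unfold HP
  rw [edist_io, edist_comm, edist_dist, Real.dist_eq, abs_of_nonneg (sub_nonneg.2 (hτ hst.le))]

theorem measurable_logkernel (d : ℝ) : Measurable (Function.uncurry fun x y : E1 =>
    if x = y then (⊤ : ℝ≥0∞) else ENNReal.ofReal (Real.log ((d + 1) / dist x y))) := by
  refine Measurable.ite (measurableSet_eq_fun measurable_fst measurable_snd) measurable_const ?_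
  exact (Real.measurable_log.comp (measurable_const.div measurable_dist)).ennreal_ofReal

theorem energy_log {d : ℝ} {τ : ℝ → ℝ} (hτ : Monotone τ) :
    ∫⁻ x, ∫⁻ y, (if x = y then (⊤ : ℝ≥0∞) else
        ENNReal.ofReal (Real.log ((d + 1) / dist x y))) ∂((rho 0).map (fun s => io (τ s)))
      ∂((rho 0).map (fun s => io (τ s))) = (C 0)⁻¹ * (C 0)⁻¹ * (2 * W 0 (H0 d τ)) := by
  have hm : Measurable (fun s => io (τ s)) := measurable_io.comp hτ.measurable
  rw [energy_map (k := fun x y : E1 => if x = y then (⊤ : ℝ≥0∞) else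
        ENNReal.ofReal (Real.log ((d + 1) / dist x y))) (measurable_logkernel d)
    (fun x y => by simp only [eq_comm, dist_comm]) hm]
  congr 2
  refine W_congr ?_
  intro s t hst
  unfold H0
  have e1 : (io (τ s) = io (τ t)) ↔ τ s = τ t := isometry_io.injective.eq_iff
  simp only [e1]
  rw [dist_io, dist_comm, Real.dist_eq, abs_of_nonneg (sub_nonneg.2 (hτ hst.le)), add_zero,
    Real.rpow_one]

/-- The energy constant of the reference interval. -/
noncomputable def Acst (p : ℝ) : ℝ≥0∞ := (C p)⁻¹ * (C p)⁻¹ * (2 * Z p)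

theorem Acst_ne_zero {p : ℝ} (hp : -1 < p) : Acst p ≠ 0 := by
  unfold Acst
  refine mul_ne_zero (mul_ne_zero ?_ ?_) (mul_ne_zero (by norm_num) (Z_ne_zero p)) <;>
  exact ENNReal.inv_ne_zero.2 (C_ne_top hp)

theorem Acst_ne_top {p : ℝ} (hp : -1 < p) (hp1 : p < 1) : Acst p ≠ ⊤ := by
  unfold Acst
  refine ENNReal.mul_ne_top (ENNReal.mul_ne_top ?_ ?_)
    (ENNReal.mul_ne_top (by norm_num) (Z_ne_top hp hp1)) <;>
  exact ENNReal.inv_ne_top.2 (C_ne_zero p)

theorem Acst_zero : Acst 0 = 1 := by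
  have hρ := rho_prob (by norm_num : (-1 : ℝ) < 0)
  have h1 := energy_rho (p := 0) (k := fun _ _ => 1) measurable_const (fun _ _ => rfl)
  simp only [lintegral_const, measure_univ, mul_one, add_zero, Real.rpow_one] at h1
  unfold Acst
  rw [h1, ← W_sigmoid 0]

theorem const_ne_zero {p : ℝ} (hp : -1 < p) : (C p)⁻¹ * (C p)⁻¹ * 2 ≠ 0 := by
  refine mul_ne_zero (mul_ne_zero ?_ ?_) (by norm_num) <;>
  exact ENNReal.inv_ne_zero.2 (C_ne_top hp)

theorem const_ne_top (p : ℝ) : (C p)⁻¹ * (C p)⁻¹ * 2 ≠ ⊤ := by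
  refine ENNReal.mul_ne_top (ENNReal.mul_ne_top ?_ ?_) (by norm_num) <;>
  exact ENNReal.inv_ne_top.2 (C_ne_zero p)

end Pool.Agent.Lib.MP_6cd19d_an
end

section

/-!
# Bounds for the capacities
-/

set_option autoImplicit false

open MeasureTheory Set Filter Topology
open scoped ENNReal

namespace Pool.Agent.Lib.MP_6cd19d_an

theorem rpow_anti {x y : ℝ≥0∞} {z : ℝ} (hz : z ≤ 0) (h : x ≤ y) : y ^ z ≤ x ^ z := by
  have e : ∀ a : ℝ≥0∞, a ^ z = (a ^ (-z))⁻¹ := by
    intro a
    rw [← ENNReal.rpow_neg, neg_neg]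
  rw [e x, e y]
  exact ENNReal.inv_le_inv.2 (ENNReal.rpow_le_rpow h (by linarith))

/-- The capacity of the unit interval. -/
noncomputable def vcst (p : ℝ) : ℝ :=
  if p = 0 then Real.exp (-((C 0)⁻¹ * (C 0)⁻¹ * (2 * W 0 HL)).toReal)
  else (Acst p ^ (-1 / p)).toReal

theorem Apow_ne_top {p : ℝ} (hp : -1 < p) (hp1 : p < 1) : Acst p ^ (-1 / p) ≠ ⊤ := by
  rcases lt_or_ge 0 (-1 / p) with h | h
  · exact ENNReal.rpow_ne_top_of_nonneg h.le (Acst_ne_top hp hp1)
  · rw [ne_eq, ENNReal.rpow_eq_top_iff]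
    rintro (⟨h1, _⟩ | ⟨h1, _⟩)
    · exact Acst_ne_zero hp h1
    · exact Acst_ne_top hp hp1 h1

theorem vcst_pos {p : ℝ} (hp : -1 < p) (hp1 : p < 1) : 0 < vcst p := by
  unfold vcst
  split_ifs with h
  · exact Real.exp_pos _
  · refine ENNReal.toReal_pos ?_ (Apow_ne_top hp hp1)
    rw [ne_eq, ENNReal.rpow_eq_zero_iff]
    rintro (⟨h1, _⟩ | ⟨h1, _⟩)
    · exact Acst_ne_zero hp h1
    · exact Acst_ne_top hp hp1 h1

section

variable {p M : ℝ} {K : Set E1} {τ : ℝ → ℝ}

theorem dist_lt_of_mem (hK : IsCompact K) {x y : E1} (hx : x ∈ K) (hy : y ∈ K) :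
    edist x y ≤ ENNReal.ofReal (Metric.diam K + 1) := by
  rw [edist_dist]
  refine ENNReal.ofReal_le_ofReal ?_
  have := Metric.dist_le_diam_of_mem hK.isBounded hx hy
  linarith

theorem energy_ge (hp : 0 ≤ p) (hK : IsCompact K) {μ : Measure E1} (h1 : μ univ = 1)
    (h2 : μ Kᶜ = 0) :
    ENNReal.ofReal (Metric.diam K + 1) ^ (-p) ≤ ∫⁻ x, ∫⁻ y, (edist x y) ^ (-p) ∂μ ∂μ := by
  have hμ : IsProbabilityMeasure μ := ⟨h1⟩
  have hae : ∀ᵐ x ∂μ, x ∈ K := by
    rw [ae_iff]
    exact h2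
  calc ENNReal.ofReal (Metric.diam K + 1) ^ (-p)
      = ∫⁻ _x, ∫⁻ _y, ENNReal.ofReal (Metric.diam K + 1) ^ (-p) ∂μ ∂μ := by simp
    _ ≤ _ := by
      refine lintegral_mono_ae ?_
      filter_upwards [hae] with x hx
      refine lintegral_mono_ae ?_
      filter_upwards [hae] with y hy
      exact rpow_anti (by linarith) (dist_lt_of_mem hK hx hy)

theorem energy_le (hp : p ≤ 0) (hK : IsCompact K) {μ : Measure E1} (h1 : μ univ = 1)
    (h2 : μ Kᶜ = 0) :
    ∫⁻ x, ∫⁻ y, (edist x y) ^ (-p) ∂μ ∂μ ≤ ENNReal.ofReal (Metric.diam K + 1) ^ (-p) := by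
  have hμ : IsProbabilityMeasure μ := ⟨h1⟩
  have hae : ∀ᵐ x ∂μ, x ∈ K := by
    rw [ae_iff]
    exact h2
  calc _ ≤ ∫⁻ _x, ∫⁻ _y, ENNReal.ofReal (Metric.diam K + 1) ^ (-p) ∂μ ∂μ := by
        refine lintegral_mono_ae ?_
        filter_upwards [hae] with x hx
        refine lintegral_mono_ae ?_
        filter_upwards [hae] with y hy
        exact ENNReal.rpow_le_rpow (dist_lt_of_mem hK hx hy) (by linarith)
    _ = _ := by simp

theorem pow_identity (hp : -1 < p) (hp1 : p < 1) (hp0 : p ≠ 0) (hM : 0 < M) :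
    (Acst p * ENNReal.ofReal M ^ (-p)) ^ (-1 / p) = Acst p ^ (-1 / p) * ENNReal.ofReal M := by
  have hM0 : ENNReal.ofReal M ≠ 0 := by
    rw [ne_eq, ENNReal.ofReal_eq_zero, not_le]
    exact hM
  have hMt : ENNReal.ofReal M ≠ ⊤ := ENNReal.ofReal_ne_top
  have h1 : ENNReal.ofReal M ^ (-p) ≠ 0 := by
    rw [ne_eq, ENNReal.rpow_eq_zero_iff]
    rintro (⟨h1, _⟩ | ⟨h1, _⟩)
    · exact hM0 h1
    · exact hMt h1
  have h2 : ENNReal.ofReal M ^ (-p) ≠ ⊤ := by
    rw [ne_eq, ENNReal.rpow_eq_top_iff]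
    rintro (⟨h1, _⟩ | ⟨h1, _⟩)
    · exact hM0 h1
    · exact hMt h1
  rw [ENNReal.mul_rpow_of_ne_top (Acst_ne_top hp hp1) h2, ← ENNReal.rpow_mul]
  congr 1
  have : -p * (-1 / p) = 1 := by field_simp
  rw [this, ENNReal.rpow_one]

theorem cap_low_pos (hp : 0 < p) (hp1 : p < 1) (hM : 0 < M) (hK : IsCompact K) (hτ : TK K τ)
    (h : Good p M τ) : vcst p * M ≤ capf p K := by
  obtain ⟨a, b, ha, hb, -⟩ := hτ.limits hK
  have hp' : -1 < p := by linarith
  have h1 := (good_iff_pos hp hp1 hM hτ.1 ha hb).1 h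
  have h2 : ∫⁻ x, ∫⁻ y, (edist x y) ^ (-p) ∂((rho p).map (fun s => io (τ s)))
      ∂((rho p).map (fun s => io (τ s))) ≤ Acst p * ENNReal.ofReal M ^ (-p) := by
    rw [energy_edist hτ.1]
    unfold Acst
    calc (C p)⁻¹ * (C p)⁻¹ * (2 * W p (HP p τ)) ≤
        (C p)⁻¹ * (C p)⁻¹ * (2 * (Z p * ENNReal.ofReal M ^ (-p))) := by gcongr
      _ = _ := by ring
  have h3 : (⨅ (μ : Measure E1) (_ : μ univ = 1 ∧ μ Kᶜ = 0),
      ∫⁻ x, ∫⁻ y, (edist x y) ^ (-p) ∂μ ∂μ) ≤ Acst p * ENNReal.ofReal M ^ (-p) :=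
    (iInf₂_le (f := fun (μ : Measure E1) (_ : μ univ = 1 ∧ μ Kᶜ = 0) =>
        ∫⁻ x, ∫⁻ y, (edist x y) ^ (-p) ∂μ ∂μ) _ (hτ.map_mem hp' hK)).trans h2
  unfold capf vcst
  rw [if_pos hp, if_neg hp.ne', ← ENNReal.toReal_ofReal hM.le, ← ENNReal.toReal_mul,
    ← pow_identity hp' hp1 hp.ne' hM]
  refine ENNReal.toReal_mono ?_ ?_
  · rw [ne_eq, ENNReal.rpow_eq_top_iff]
    rintro (⟨h4, _⟩ | ⟨_, h4⟩)
    · have h5 : ENNReal.ofReal (Metric.diam K + 1) ^ (-p) ≤
          ⨅ (μ : Measure E1) (_ : μ univ = 1 ∧ μ Kᶜ = 0),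
            ∫⁻ x, ∫⁻ y, (edist x y) ^ (-p) ∂μ ∂μ :=
        le_iInf₂ fun μ hμ => energy_ge hp.le hK hμ.1 hμ.2
      rw [h4, nonpos_iff_eq_zero, ENNReal.rpow_eq_zero_iff] at h5
      rcases h5 with ⟨_, h6⟩ | ⟨h6, _⟩
      · linarith
      · exact ENNReal.ofReal_ne_top h6
    · have : -1 / p < 0 := div_neg_of_neg_of_pos (by norm_num) hp
      linarith
  · exact rpow_anti (div_neg_of_neg_of_pos (by norm_num) hp).le h3

theorem cap_up_pos (hp : 0 < p) (hp1 : p < 1) (hM : 0 < M) (hK : IsCompact K)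
    (h : vcst p * M < capf p K) : ∃ τ, TK K τ ∧ Good p M τ := by
  have hp' : -1 < p := by linarith
  have h3 : (⨅ (μ : Measure E1) (_ : μ univ = 1 ∧ μ Kᶜ = 0),
      ∫⁻ x, ∫⁻ y, (edist x y) ^ (-p) ∂μ ∂μ) < Acst p * ENNReal.ofReal M ^ (-p) := by
    by_contra hcon
    rw [not_lt] at hcon
    refine absurd h (not_lt.2 ?_)
    unfold capf vcst
    rw [if_pos hp, if_neg hp.ne']
    have h4 := rpow_anti (z := -1 / p) (div_neg_of_neg_of_pos (by norm_num) hp).le hcon
    rw [pow_identity hp' hp1 hp.ne' hM] at h4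
    have h5 := ENNReal.toReal_mono (ENNReal.mul_ne_top (Apow_ne_top hp' hp1)
      ENNReal.ofReal_ne_top) h4
    rwa [ENNReal.toReal_mul, ENNReal.toReal_ofReal hM.le] at h5
  obtain ⟨μ, hμ⟩ := iInf_lt_iff.1 h3
  obtain ⟨hμK, hμE⟩ := iInf_lt_iff.1 hμ
  obtain ⟨τ, hτ, hmap⟩ := exists_TK hp' hK hμK.1 hμK.2
  refine ⟨τ, hτ, ?_⟩
  obtain ⟨a, b, ha, hb, -⟩ := hτ.limits hK
  rw [good_iff_pos hp hp1 hM hτ.1 ha hb]
  rw [← hmap, energy_edist hτ.1] at hμE
  have h6 : (C p)⁻¹ * (C p)⁻¹ * 2 * W p (HP p τ) ≤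
      (C p)⁻¹ * (C p)⁻¹ * 2 * (Z p * ENNReal.ofReal M ^ (-p)) := by
    calc _ = (C p)⁻¹ * (C p)⁻¹ * (2 * W p (HP p τ)) := by ring
      _ ≤ _ := hμE.le
      _ = _ := by
        unfold Acst
        ring
  exact (ENNReal.mul_le_mul_iff_right (const_ne_zero hp') (const_ne_top p)).1 h6

theorem cap_low_neg (hp : -1 < p) (hp0 : p < 0) (hM : 0 < M) (hK : IsCompact K) (hτ : TK K τ)
    (h : Good p M τ) : vcst p * M ≤ capf p K := by
  obtain ⟨a, b, ha, hb, -⟩ := hτ.limits hK
  have hp1 : p < 1 := by linarith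
  have h1 := (good_iff_neg hp hp0 hM hτ.1 ha hb).1 h
  have h2 : Acst p * ENNReal.ofReal M ^ (-p) ≤
      ∫⁻ x, ∫⁻ y, (edist x y) ^ (-p) ∂((rho p).map (fun s => io (τ s)))
      ∂((rho p).map (fun s => io (τ s))) := by
    rw [energy_edist hτ.1]
    unfold Acst
    calc _ = (C p)⁻¹ * (C p)⁻¹ * (2 * (Z p * ENNReal.ofReal M ^ (-p))) := by ring
      _ ≤ (C p)⁻¹ * (C p)⁻¹ * (2 * W p (HP p τ)) := by gcongr
  have h3 : Acst p * ENNReal.ofReal M ^ (-p) ≤
      (⨆ (μ : Measure E1) (_ : μ univ = 1 ∧ μ Kᶜ = 0),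
        ∫⁻ x, ∫⁻ y, (edist x y) ^ (-p) ∂μ ∂μ) :=
    h2.trans (le_iSup₂ (f := fun (μ : Measure E1) (_ : μ univ = 1 ∧ μ Kᶜ = 0) =>
        ∫⁻ x, ∫⁻ y, (edist x y) ^ (-p) ∂μ ∂μ) _ (hτ.map_mem hp hK))
  have hpos : 0 < -1 / p := div_pos_of_neg_of_neg (by norm_num) hp0
  unfold capf vcst
  rw [if_neg (not_lt.2 hp0.le), if_neg hp0.ne, if_neg hp0.ne, ← ENNReal.toReal_ofReal hM.le,
    ← ENNReal.toReal_mul, ← pow_identity hp hp1 hp0.ne hM]
  refine ENNReal.toReal_mono ?_ ?_
  · refine ENNReal.rpow_ne_top_of_nonneg hpos.le ?_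
    have h5 : (⨆ (μ : Measure E1) (_ : μ univ = 1 ∧ μ Kᶜ = 0),
        ∫⁻ x, ∫⁻ y, (edist x y) ^ (-p) ∂μ ∂μ) ≤ ENNReal.ofReal (Metric.diam K + 1) ^ (-p) :=
      iSup₂_le fun μ hμ => energy_le hp0.le hK hμ.1 hμ.2
    exact ne_top_of_le_ne_top (ENNReal.rpow_ne_top_of_nonneg (by linarith)
      ENNReal.ofReal_ne_top) h5
  · exact ENNReal.rpow_le_rpow h3 hpos.le

theorem cap_up_neg (hp : -1 < p) (hp0 : p < 0) (hM : 0 < M) (hK : IsCompact K)
    (h : vcst p * M < capf p K) : ∃ τ, TK K τ ∧ Good p M τ := by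
  have hp1 : p < 1 := by linarith
  have hpos : 0 < -1 / p := div_pos_of_neg_of_neg (by norm_num) hp0
  have h3 : Acst p * ENNReal.ofReal M ^ (-p) <
      (⨆ (μ : Measure E1) (_ : μ univ = 1 ∧ μ Kᶜ = 0),
        ∫⁻ x, ∫⁻ y, (edist x y) ^ (-p) ∂μ ∂μ) := by
    by_contra hcon
    rw [not_lt] at hcon
    refine absurd h (not_lt.2 ?_)
    unfold capf vcst
    rw [if_neg (not_lt.2 hp0.le), if_neg hp0.ne, if_neg hp0.ne]
    have h4 := ENNReal.rpow_le_rpow hcon hpos.le
    rw [pow_identity hp hp1 hp0.ne hM] at h4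
    have h5 := ENNReal.toReal_mono (ENNReal.mul_ne_top (Apow_ne_top hp hp1)
      ENNReal.ofReal_ne_top) h4
    rwa [ENNReal.toReal_mul, ENNReal.toReal_ofReal hM.le] at h5
  obtain ⟨μ, hμ⟩ := lt_iSup_iff.1 h3
  obtain ⟨hμK, hμE⟩ := lt_iSup_iff.1 hμ
  obtain ⟨τ, hτ, hmap⟩ := exists_TK hp hK hμK.1 hμK.2
  refine ⟨τ, hτ, ?_⟩
  obtain ⟨a, b, ha, hb, -⟩ := hτ.limits hK
  rw [good_iff_neg hp hp0 hM hτ.1 ha hb]
  rw [← hmap, energy_edist hτ.1] at hμE
  have h6 : (C p)⁻¹ * (C p)⁻¹ * 2 * (Z p * ENNReal.ofReal M ^ (-p)) ≤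
      (C p)⁻¹ * (C p)⁻¹ * 2 * W p (HP p τ) := by
    calc _ = Acst p * ENNReal.ofReal M ^ (-p) := by
          unfold Acst
          ring
      _ ≤ _ := hμE.le
      _ = _ := by ring
  exact (ENNReal.mul_le_mul_iff_right (const_ne_zero hp) (const_ne_top p)).1 h6

/-- The logarithmic energy of the reference interval. -/
noncomputable def Lcst : ℝ≥0∞ := (C 0)⁻¹ * (C 0)⁻¹ * (2 * W 0 HL)

theorem Lcst_ne_top : Lcst ≠ ⊤ := by
  unfold Lcst
  refine ENNReal.mul_ne_top (ENNReal.mul_ne_top ?_ ?_)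
    (ENNReal.mul_ne_top (by norm_num) W_HL_ne_top) <;>
  exact ENNReal.inv_ne_top.2 (C_ne_zero 0)

theorem good_zero_iff_energy (hM : 0 < M) (hK : IsCompact K) (hMd : M ≤ Metric.diam K + 1)
    (hτ : TK K τ) : Good 0 M τ ↔
    ∫⁻ x, ∫⁻ y, (if x = y then (⊤ : ℝ≥0∞) else
        ENNReal.ofReal (Real.log ((Metric.diam K + 1) / dist x y)))
          ∂((rho 0).map (fun s => io (τ s))) ∂((rho 0).map (fun s => io (τ s))) ≤
      ENNReal.ofReal (Real.log ((Metric.diam K + 1) / M)) + Lcst := by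
  obtain ⟨a, b, ha, hb, -⟩ := hτ.limits hK
  rw [good_iff_zero hM hMd hτ.1 (fun s t => hτ.sub_le hK s t) ha hb, energy_log hτ.1]
  have e1 : ENNReal.ofReal (Real.log ((Metric.diam K + 1) / M)) + Lcst =
      (C 0)⁻¹ * (C 0)⁻¹ * 2 *
        (ENNReal.ofReal (Real.log ((Metric.diam K + 1) / M)) * Z 0 + W 0 HL) := by
    unfold Lcst
    have h1 := Acst_zero
    unfold Acst at h1
    calc _ = ENNReal.ofReal (Real.log ((Metric.diam K + 1) / M)) *
          ((C 0)⁻¹ * (C 0)⁻¹ * (2 * Z 0)) + (C 0)⁻¹ * (C 0)⁻¹ * (2 * W 0 HL) := by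
            rw [h1, mul_one]
      _ = _ := by ring
  have e2 : (C 0)⁻¹ * (C 0)⁻¹ * (2 * W 0 (H0 (Metric.diam K) τ)) =
      (C 0)⁻¹ * (C 0)⁻¹ * 2 * W 0 (H0 (Metric.diam K) τ) := by ring
  rw [e1, e2, ENNReal.mul_le_mul_iff_right (const_ne_zero (by norm_num)) (const_ne_top 0)]

theorem cap_low_zero (hM : 0 < M) (hK : IsCompact K) (hτ : TK K τ)
    (h : Good 0 M τ) : vcst 0 * M ≤ capf 0 K := by
  obtain ⟨a, b, ha, hb, hab⟩ := hτ.limits hK
  have hMle : M ≤ Metric.diam K + 1 := by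
    have := h.le (by norm_num) (by norm_num) hM hτ.1 ha hb
    linarith
  have hd0 : 0 < Metric.diam K + 1 := hM.trans_le hMle
  have h1 := (good_zero_iff_energy hM hK hMle hτ).1 h
  have hl0 : 0 ≤ Real.log ((Metric.diam K + 1) / M) :=
    Real.log_nonneg (by rwa [le_div_iff₀ hM, one_mul])
  have hfin : ENNReal.ofReal (Real.log ((Metric.diam K + 1) / M)) + Lcst ≠ ⊤ :=
    ENNReal.add_ne_top.2 ⟨ENNReal.ofReal_ne_top, Lcst_ne_top⟩
  set I := ⨅ (μ : Measure E1) (_ : μ univ = 1 ∧ μ Kᶜ = 0),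
        ∫⁻ x, ∫⁻ y, (if x = y then (⊤ : ℝ≥0∞) else
          ENNReal.ofReal (Real.log ((Metric.diam K + 1) / dist x y))) ∂μ ∂μ with hI
  have h3 : I ≤ ENNReal.ofReal (Real.log ((Metric.diam K + 1) / M)) + Lcst :=
    (iInf₂_le (f := fun (μ : Measure E1) (_ : μ univ = 1 ∧ μ Kᶜ = 0) =>
        ∫⁻ x, ∫⁻ y, (if x = y then (⊤ : ℝ≥0∞) else
          ENNReal.ofReal (Real.log ((Metric.diam K + 1) / dist x y))) ∂μ ∂μ) _
      (hτ.map_mem (p := 0) (by norm_num) hK)).trans h1
  have hItop : I ≠ ⊤ := ne_top_of_le_ne_top hfin h3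
  have h4 := ENNReal.toReal_mono hfin h3
  rw [ENNReal.toReal_add ENNReal.ofReal_ne_top Lcst_ne_top, ENNReal.toReal_ofReal hl0] at h4
  unfold capf vcst
  rw [if_neg (lt_irrefl 0), if_pos rfl, if_pos rfl, if_neg hItop]
  change Real.exp (-Lcst.toReal) * M ≤ _
  calc Real.exp (-Lcst.toReal) * M
      = (Metric.diam K + 1) * Real.exp (-(Real.log ((Metric.diam K + 1) / M) + Lcst.toReal)) := by
        rw [neg_add, Real.exp_add, ← Real.log_inv, Real.exp_log (by positivity)]
        field_simp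
    _ ≤ _ := by
        refine mul_le_mul_of_nonneg_left (Real.exp_le_exp.2 ?_) hd0.le
        linarith

theorem cap_up_zero' (hM : 0 < M) (hK : IsCompact K) (hMd : M ≤ Metric.diam K + 1)
    (h : vcst 0 * M < capf 0 K) : ∃ τ, TK K τ ∧ Good 0 M τ := by
  by_contra hcon
  push Not at hcon
  have hd0 : 0 < Metric.diam K + 1 := hM.trans_le hMd
  have hl0 : 0 ≤ Real.log ((Metric.diam K + 1) / M) :=
    Real.log_nonneg (by rwa [le_div_iff₀ hM, one_mul])
  set I := ⨅ (μ : Measure E1) (_ : μ univ = 1 ∧ μ Kᶜ = 0),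
        ∫⁻ x, ∫⁻ y, (if x = y then (⊤ : ℝ≥0∞) else
          ENNReal.ofReal (Real.log ((Metric.diam K + 1) / dist x y))) ∂μ ∂μ with hI
  have h3 : ENNReal.ofReal (Real.log ((Metric.diam K + 1) / M)) + Lcst ≤ I := by
    refine le_iInf₂ fun μ hμ => ?_
    obtain ⟨τ, hτ, hmap⟩ := exists_TK (p := 0) (by norm_num) hK hμ.1 hμ.2
    have h4 := hcon τ hτ
    rw [good_zero_iff_energy hM hK hMd hτ, not_le, hmap] at h4
    exact h4.le
  refine absurd h (not_lt.2 ?_)
  unfold capf vcst
  rw [if_neg (lt_irrefl 0), if_pos rfl, if_pos rfl]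
  by_cases hItop : I = ⊤
  · rw [if_pos hItop]
    positivity
  · rw [if_neg hItop]
    have h4 := ENNReal.toReal_mono hItop h3
    rw [ENNReal.toReal_add ENNReal.ofReal_ne_top Lcst_ne_top, ENNReal.toReal_ofReal hl0] at h4
    change _ ≤ Real.exp (-Lcst.toReal) * M
    calc (Metric.diam K + 1) * Real.exp (-I.toReal) ≤
        (Metric.diam K + 1) * Real.exp (-(Real.log ((Metric.diam K + 1) / M) + Lcst.toReal)) := by
          refine mul_le_mul_of_nonneg_left (Real.exp_le_exp.2 ?_) hd0.le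
          linarith
      _ = Real.exp (-Lcst.toReal) * M := by
          rw [neg_add, Real.exp_add, ← Real.log_inv, Real.exp_log (by positivity)]
          field_simp

theorem cap_up_zero (hM : 0 < M) (hK : IsCompact K)
    (h : vcst 0 * M < capf 0 K) : ∃ τ, TK K τ ∧ Good 0 M τ := by
  rcases le_or_gt M (Metric.diam K + 1) with hMd | hMd
  · exact cap_up_zero' hM hK hMd h
  · exfalso
    have hd0 : 0 < Metric.diam K + 1 := by
      have := Metric.diam_nonneg (s := K)
      linarith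
    have hv := vcst_pos (by norm_num : (-1 : ℝ) < 0) (by norm_num : (0 : ℝ) < 1)
    obtain ⟨τ, hτ, hgood⟩ := cap_up_zero' hd0 hK le_rfl
      ((mul_lt_mul_of_pos_left hMd hv).trans h)
    obtain ⟨a, b, ha, hb, hab⟩ := hτ.limits hK
    have := hgood.le (by norm_num) (by norm_num) hd0 hτ.1 ha hb
    linarith

theorem cap_low (hp : -1 < p) (hp1 : p < 1) (hM : 0 < M) (hK : IsCompact K) (hτ : TK K τ)
    (h : Good p M τ) : vcst p * M ≤ capf p K := by
  rcases lt_trichotomy p 0 with h0 | h0 | h0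
  · exact cap_low_neg hp h0 hM hK hτ h
  · subst h0
    exact cap_low_zero hM hK hτ h
  · exact cap_low_pos h0 hp1 hM hK hτ h

theorem cap_up (hp : -1 < p) (hp1 : p < 1) (hM : 0 < M) (hK : IsCompact K)
    (h : vcst p * M < capf p K) : ∃ τ, TK K τ ∧ Good p M τ := by
  rcases lt_trichotomy p 0 with h0 | h0 | h0
  · exact cap_up_neg hp h0 hM hK h
  · subst h0
    exact cap_up_zero hM hK h
  · exact cap_up_pos h0 hp1 hM hK h

end

end Pool.Agent.Lib.MP_6cd19d_an
end

section

/-!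
# Capacities of exponent at most `-1`
-/

set_option autoImplicit false

open MeasureTheory Set Filter Topology
open scoped ENNReal

namespace Pool.Agent.Lib.MP_6cd19d_an

theorem dist_coord (x y : E1) : dist x y = |x 0 - y 0| := by
  rw [← io_coord x, ← io_coord y, dist_io, coord_io, coord_io, Real.dist_eq]

theorem exists_ends {K : Set E1} (hK : IsCompact K) (hne : K.Nonempty) :
    ∃ u ∈ K, ∃ v ∈ K, Metric.diam K = v 0 - u 0 ∧ ∀ x ∈ K, u 0 ≤ x 0 ∧ x 0 ≤ v 0 := by
  have hc : ContinuousOn (fun x : E1 => x 0) K := by fun_prop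
  obtain ⟨u, hu, hmin⟩ := hK.exists_isMinOn hne hc
  obtain ⟨v, hv, hmax⟩ := hK.exists_isMaxOn hne hc
  have hmin' : ∀ x ∈ K, u 0 ≤ x 0 := fun x hx => hmin hx
  have hmax' : ∀ x ∈ K, x 0 ≤ v 0 := fun x hx => hmax hx
  refine ⟨u, hu, v, hv, ?_, fun x hx => ⟨hmin' x hx, hmax' x hx⟩⟩
  refine le_antisymm ?_ ?_
  · refine Metric.diam_le_of_forall_dist_le (sub_nonneg.2 (hmin' v hv)) ?_
    intro x hx y hy
    rw [dist_coord, abs_le]
    have h1 := hmin' x hx
    have h2 := hmin' y hy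
    have h3 := hmax' x hx
    have h4 := hmax' y hy
    constructor <;> linarith
  · have h1 := Metric.dist_le_diam_of_mem hK.isBounded hv hu
    rw [dist_coord] at h1
    exact (le_abs_self _).trans h1

theorem energy_le_half {r : ℝ} (hr : 1 ≤ r) {K : Set E1} (hK : IsCompact K) {μ : Measure E1}
    (h1 : μ univ = 1) (h2 : μ Kᶜ = 0) :
    ∫⁻ x, ∫⁻ y, (edist x y) ^ r ∂μ ∂μ ≤ ENNReal.ofReal (Metric.diam K ^ r / 2) := by
  have hμ : IsProbabilityMeasure μ := ⟨h1⟩
  have hae : ∀ᵐ x ∂μ, x ∈ K := by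
    rw [ae_iff]
    exact h2
  have hne : K.Nonempty := by
    by_contra hcon
    rw [not_nonempty_iff_eq_empty] at hcon
    rw [hcon, compl_empty, h1] at h2
    exact one_ne_zero h2
  obtain ⟨u, hu, v, hv, hd, hb⟩ := exists_ends hK hne
  set d := Metric.diam K with hddef
  have hd0 : 0 ≤ d := Metric.diam_nonneg
  rcases hd0.eq_or_lt with hd0' | hdpos
  · have h3 : ∫⁻ x, ∫⁻ y, (edist x y) ^ r ∂μ ∂μ ≤ ∫⁻ _x, ∫⁻ _y, 0 ∂μ ∂μ := by
      refine lintegral_mono_ae ?_
      filter_upwards [hae] with x hx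
      refine lintegral_mono_ae ?_
      filter_upwards [hae] with y hy
      have h4 := Metric.dist_le_diam_of_mem hK.isBounded hx hy
      rw [← hddef, ← hd0'] at h4
      have h5 : edist x y = 0 := by
        rw [edist_dist, le_antisymm h4 dist_nonneg, ENNReal.ofReal_zero]
      rw [h5, ENNReal.zero_rpow_of_pos (by linarith)]
    refine h3.trans ?_
    simp
  · set F : ℝ≥0∞ := ∫⁻ x, ENNReal.ofReal (x 0 - u 0) ∂μ with hF
    set G : ℝ≥0∞ := ∫⁻ x, ENNReal.ofReal (v 0 - x 0) ∂μ with hG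
    have hmF : Measurable (fun x : E1 => ENNReal.ofReal (x 0 - u 0)) := by fun_prop
    have hmG : Measurable (fun x : E1 => ENNReal.ofReal (v 0 - x 0)) := by fun_prop
    have hFG : F + G = ENNReal.ofReal d := by
      rw [hF, hG, ← lintegral_add_left hmF]
      have : ∫⁻ x, (ENNReal.ofReal (x 0 - u 0) + ENNReal.ofReal (v 0 - x 0)) ∂μ =
          ∫⁻ _x, ENNReal.ofReal d ∂μ := by
        refine lintegral_congr_ae ?_
        filter_upwards [hae] with x hx
        have := hb x hx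
        rw [← ENNReal.ofReal_add (by linarith) (by linarith), hd]
        congr 1
        ring
      rw [this]
      simp
    have hFt : F ≠ ⊤ := ne_top_of_le_ne_top ENNReal.ofReal_ne_top (hFG ▸ le_self_add)
    have hGt : G ≠ ⊤ := ne_top_of_le_ne_top ENNReal.ofReal_ne_top (hFG ▸ le_add_self)
    have hfg : F.toReal + G.toReal = d := by
      rw [← ENNReal.toReal_add hFt hGt, hFG, ENNReal.toReal_ofReal hd0]
    have hpt : ∀ x ∈ K, ∀ y ∈ K, ENNReal.ofReal d * (edist x y) ^ r ≤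
        ENNReal.ofReal (d ^ (r - 1)) * (ENNReal.ofReal (x 0 - u 0) * ENNReal.ofReal (v 0 - y 0) +
          ENNReal.ofReal (v 0 - x 0) * ENNReal.ofReal (y 0 - u 0)) := by
      intro x hx y hy
      obtain ⟨hx1, hx2⟩ := hb x hx
      obtain ⟨hy1, hy2⟩ := hb y hy
      rw [← ENNReal.ofReal_mul (by linarith), ← ENNReal.ofReal_mul (by linarith),
        ← ENNReal.ofReal_add (mul_nonneg (by linarith) (by linarith))
          (mul_nonneg (by linarith) (by linarith)), ← ENNReal.ofReal_mul (by positivity),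
        edist_dist, dist_coord, ENNReal.ofReal_rpow_of_nonneg (abs_nonneg _) (by linarith),
        ← ENNReal.ofReal_mul hd0]
      refine ENNReal.ofReal_le_ofReal ?_
      have hle : |x 0 - y 0| ≤ d := by
        rw [hd, abs_le]
        constructor <;> linarith
      have h3 : |x 0 - y 0| ^ r ≤ d ^ (r - 1) * |x 0 - y 0| := by
        have e : r = (r - 1) + 1 := by ring
        conv_lhs => rw [e]
        rw [Real.rpow_add_one' (abs_nonneg _) (by linarith)]
        exact mul_le_mul_of_nonneg_right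
          (Real.rpow_le_rpow (abs_nonneg _) hle (by linarith)) (abs_nonneg _)
      have h4 : d * |x 0 - y 0| ≤ (x 0 - u 0) * (v 0 - y 0) + (v 0 - x 0) * (y 0 - u 0) := by
        rw [hd]
        have q1 : 0 ≤ (x 0 - u 0) * (v 0 - y 0) := mul_nonneg (by linarith) (by linarith)
        have q2 : 0 ≤ (v 0 - x 0) * (y 0 - u 0) := mul_nonneg (by linarith) (by linarith)
        rcases abs_cases (x 0 - y 0) with ⟨h, _⟩ | ⟨h, _⟩ <;> rw [h] <;> nlinarith
      calc d * |x 0 - y 0| ^ r ≤ d * (d ^ (r - 1) * |x 0 - y 0|) :=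
            mul_le_mul_of_nonneg_left h3 hd0
        _ = d ^ (r - 1) * (d * |x 0 - y 0|) := by ring
        _ ≤ _ := mul_le_mul_of_nonneg_left h4 (Real.rpow_nonneg hd0 _)
    have hint : ENNReal.ofReal d * ∫⁻ x, ∫⁻ y, (edist x y) ^ r ∂μ ∂μ ≤
        ENNReal.ofReal (d ^ (r - 1)) * (F * G + G * F) := by
      calc ENNReal.ofReal d * ∫⁻ x, ∫⁻ y, (edist x y) ^ r ∂μ ∂μ
          = ∫⁻ x, ∫⁻ y, ENNReal.ofReal d * (edist x y) ^ r ∂μ ∂μ := by
            rw [← lintegral_const_mul' _ _ ENNReal.ofReal_ne_top]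
            refine lintegral_congr fun x => ?_
            rw [lintegral_const_mul' _ _ ENNReal.ofReal_ne_top]
        _ ≤ ∫⁻ x, ∫⁻ y, ENNReal.ofReal (d ^ (r - 1)) *
            (ENNReal.ofReal (x 0 - u 0) * ENNReal.ofReal (v 0 - y 0) +
              ENNReal.ofReal (v 0 - x 0) * ENNReal.ofReal (y 0 - u 0)) ∂μ ∂μ := by
            refine lintegral_mono_ae ?_
            filter_upwards [hae] with x hx
            refine lintegral_mono_ae ?_
            filter_upwards [hae] with y hy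
            exact hpt x hx y hy
        _ = _ := by
            have : ∀ x : E1, ∫⁻ y, ENNReal.ofReal (d ^ (r - 1)) *
                (ENNReal.ofReal (x 0 - u 0) * ENNReal.ofReal (v 0 - y 0) +
                ENNReal.ofReal (v 0 - x 0) * ENNReal.ofReal (y 0 - u 0)) ∂μ =
                ENNReal.ofReal (d ^ (r - 1)) * (ENNReal.ofReal (x 0 - u 0) * G +
                  ENNReal.ofReal (v 0 - x 0) * F) := by
              intro x
              rw [lintegral_const_mul' _ _ ENNReal.ofReal_ne_top,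
                lintegral_add_left (hmG.const_mul _),
                lintegral_const_mul' _ _ ENNReal.ofReal_ne_top,
                lintegral_const_mul' _ _ ENNReal.ofReal_ne_top]
            simp_rw [this]
            rw [lintegral_const_mul' _ _ ENNReal.ofReal_ne_top,
              lintegral_add_left (hmF.mul_const _), lintegral_mul_const' _ _ hGt,
              lintegral_mul_const' _ _ hFt]
    have hdne : ENNReal.ofReal d ≠ 0 := by
      rw [ne_eq, ENNReal.ofReal_eq_zero, not_le]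
      exact hdpos
    refine (ENNReal.mul_le_mul_iff_right hdne ENNReal.ofReal_ne_top).1 (hint.trans ?_)
    rw [← ENNReal.ofReal_toReal hFt, ← ENNReal.ofReal_toReal hGt,
      ← ENNReal.ofReal_mul ENNReal.toReal_nonneg, ← ENNReal.ofReal_mul ENNReal.toReal_nonneg,
      ← ENNReal.ofReal_add (by positivity) (by positivity),
      ← ENNReal.ofReal_mul (by positivity), ← ENNReal.ofReal_mul hd0]
    refine ENNReal.ofReal_le_ofReal ?_
    have h5 : d * (d ^ r / 2) = d ^ (r - 1) * (d ^ 2 / 2) := by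
      have : d ^ r = d ^ (r - 1) * d := by
        rw [← Real.rpow_add_one hdpos.ne']
        congr 1
        ring
      rw [this]
      ring
    rw [h5]
    refine mul_le_mul_of_nonneg_left ?_ (Real.rpow_nonneg hd0 _)
    rw [← hfg]
    nlinarith [sq_nonneg (F.toReal - G.toReal)]

/-- The capacities of exponent at most `-1`. -/
theorem capf_le_neg_one {p : ℝ} (hp : p ≤ -1) {K : Set E1} (hK : IsCompact K) :
    capf p K = (2 : ℝ) ^ (1 / p) * Metric.diam K := by
  have hp0 : p < 0 := by linarith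
  have hr : 1 ≤ -p := by linarith
  have hpos : 0 < -1 / p := div_pos_of_neg_of_neg (by norm_num) hp0
  have hd0 : 0 ≤ Metric.diam K := Metric.diam_nonneg
  have hsup : (⨆ (μ : Measure E1) (_ : μ univ = 1 ∧ μ Kᶜ = 0),
        ∫⁻ x, ∫⁻ y, (edist x y) ^ (-p) ∂μ ∂μ) = ENNReal.ofReal (Metric.diam K ^ (-p) / 2) := by
    refine le_antisymm (iSup₂_le fun μ hμ => energy_le_half hr hK hμ.1 hμ.2) ?_
    rcases K.eq_empty_or_nonempty with hKe | hne
    · rw [hKe, Metric.diam_empty, Real.zero_rpow (by linarith)]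
      simp
    · obtain ⟨u, hu, v, hv, hd, -⟩ := exists_ends hK hne
      set μ : Measure E1 := (2⁻¹ : ℝ≥0∞) • (Measure.dirac u + Measure.dirac v) with hμ
      have hm : μ univ = 1 ∧ μ Kᶜ = 0 := by
        constructor
        · rw [hμ]
          simp only [Measure.smul_apply, Measure.add_apply, measure_univ, smul_eq_mul]
          rw [one_add_one_eq_two, ENNReal.inv_mul_cancel (by norm_num) (by norm_num)]
        · rw [hμ]
          simp only [Measure.smul_apply, Measure.add_apply, smul_eq_mul]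
          rw [Measure.dirac_apply' _ hK.isClosed.measurableSet.compl,
            Measure.dirac_apply' _ hK.isClosed.measurableSet.compl]
          simp [hu, hv]
      refine le_trans (le_of_eq ?_) (le_iSup₂ (f := fun (μ : Measure E1)
        (_ : μ univ = 1 ∧ μ Kᶜ = 0) => ∫⁻ x, ∫⁻ y, (edist x y) ^ (-p) ∂μ ∂μ) μ hm)
      rw [hμ]
      simp only [lintegral_smul_measure, lintegral_add_measure, lintegral_dirac, smul_eq_mul,
        edist_self]
      have hz : (0 : ℝ≥0∞) ^ (-p) = 0 := ENNReal.zero_rpow_of_pos (by linarith)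
      have he : edist u v = ENNReal.ofReal (Metric.diam K) := by
        rw [edist_dist, dist_coord, abs_sub_comm, hd, abs_of_nonneg]
        rw [← hd]
        exact hd0
      rw [hz, edist_comm v u, he, ENNReal.ofReal_rpow_of_nonneg hd0 (by linarith), zero_add,
        add_zero, ENNReal.ofReal_div_of_pos (by norm_num)]
      have h2 : ENNReal.ofReal 2 = 2 := by simp
      rw [h2, ENNReal.div_eq_inv_mul]
      set t := ENNReal.ofReal (Metric.diam K ^ (-p))
      calc 2⁻¹ * t = (2⁻¹ * 2) * (2⁻¹ * t) := by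
            rw [ENNReal.inv_mul_cancel (by norm_num) (by norm_num), one_mul]
        _ = _ := by ring
  unfold capf
  rw [if_neg (not_lt.2 hp0.le), if_neg hp0.ne, hsup,
    ENNReal.ofReal_rpow_of_nonneg (by positivity) hpos.le, ENNReal.toReal_ofReal (by positivity),
    Real.div_rpow (by positivity) (by norm_num), ← Real.rpow_mul hd0]
  have e1 : -p * (-1 / p) = 1 := by
    have hpne : p ≠ 0 := hp0.ne
    field_simp
  have e2 : (2 : ℝ) ^ (1 / p) = ((2 : ℝ) ^ (-1 / p))⁻¹ := by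
    rw [← Real.rpow_neg (by norm_num)]
    congr 1
    ring
  rw [e1, Real.rpow_one, e2]
  ring

end Pool.Agent.Lib.MP_6cd19d_an
end

section

/-!
# Volume and capacities
-/

set_option autoImplicit false

open MeasureTheory Set Filter Topology
open scoped ENNReal

namespace Pool.Agent.Lib.MP_6cd19d_an

theorem coord_preserving : MeasurePreserving (fun x : E1 => x 0) volume volume := by
  have h1 := EuclideanSpace.volume_preserving_symm_measurableEquiv_toLp (Fin 1)
  have h2 := volume_preserving_funUnique (Fin 1) ℝ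
  have h3 := h2.comp h1
  exact h3

theorem vol_coord_Icc (a b : ℝ) : volume {x : E1 | x 0 ∈ Icc a b} = ENNReal.ofReal (b - a) := by
  rw [← Real.volume_Icc, ← coord_preserving.measure_preimage measurableSet_Icc.nullMeasurableSet]
  rfl

theorem vol_le_diam {K : Set E1} (hK : IsCompact K) :
    (volume K).toReal ≤ Metric.diam K := by
  rcases K.eq_empty_or_nonempty with hKe | hne
  · rw [hKe]
    simp
  · obtain ⟨u, _, v, _, hd, hb⟩ := exists_ends hK hne
    have h1 : volume K ≤ ENNReal.ofReal (v 0 - u 0) := by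
      rw [← vol_coord_Icc]
      exact measure_mono fun x hx => hb x hx
    rw [hd]
    refine ENNReal.toReal_le_of_le_ofReal ?_ h1
    rw [← hd]
    exact Metric.diam_nonneg

theorem ball_eq : Metric.closedBall (0 : E1) 1 = {x : E1 | x 0 ∈ Icc (-1 : ℝ) 1} := by
  ext x
  rw [Metric.mem_closedBall, dist_coord]
  simp only [mem_Icc]
  change |x 0 - 0| ≤ 1 ↔ _
  rw [sub_zero, abs_le]
  rfl

theorem io_mem_ball {r : ℝ} (h : r ∈ Icc (-1 : ℝ) 1) : io r ∈ Metric.closedBall (0 : E1) 1 := by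
  rw [ball_eq]
  change (io r) 0 ∈ Icc (-1 : ℝ) 1
  rwa [coord_io]

theorem vol_ball : (volume (Metric.closedBall (0 : E1) 1)).toReal = 2 := by
  rw [ball_eq, vol_coord_Icc]
  norm_num

theorem diam_ball : Metric.diam (Metric.closedBall (0 : E1) 1) = 2 := by
  refine le_antisymm ?_ ?_
  · have := Metric.diam_closedBall (x := (0 : E1)) (r := 1) (by norm_num)
    linarith
  · have h1 := Metric.dist_le_diam_of_mem (Metric.isBounded_closedBall (x := (0 : E1)) (r := 1))
      (io_mem_ball (r := 1) (by norm_num)) (io_mem_ball (r := -1) (by norm_num))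
    rw [dist_io, Real.dist_eq] at h1
    norm_num at h1
    exact h1

theorem Pw_one (s : ℝ) : P s ^ (-(1 + 1) : ℝ) = Real.sigmoid s * (1 - Real.sigmoid s) := by
  have h2 : P s = Real.exp (s / 2) + (Real.exp (s / 2))⁻¹ := by
    unfold P
    rw [Real.cosh_eq, ← Real.exp_neg]
    ring
  have h1 : Real.exp (-s) = (Real.exp (s / 2))⁻¹ ^ 2 := by
    rw [← Real.exp_neg, ← Real.exp_nat_mul]
    congr 1
    push_cast
    ring
  have h3 : (-(1 + 1) : ℝ) = -((2 : ℕ) : ℝ) := by norm_num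
  rw [h3, Real.rpow_neg (P_pos s).le, Real.rpow_natCast, Real.sigmoid_def, h1, h2]
  have ha := Real.exp_pos (s / 2)
  generalize Real.exp (s / 2) = a at *
  have h4 : (1 + a⁻¹ ^ 2) ≠ 0 := by positivity
  have h6 : a + a⁻¹ ≠ 0 := by positivity
  have h8 : 1 + a ^ 2 ≠ 0 := by positivity
  field_simp
  ring

theorem C_one : C 1 = 1 := by
  have hC := C_ne_top (by norm_num : (-1 : ℝ) < 1)
  have hder : ∀ s, HasDerivAt Real.sigmoid (P s ^ (-(1 + 1) : ℝ)) s := by
    intro s
    rw [Pw_one]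
    exact Real.hasDerivAt_sigmoid s
  have hpos : ∀ s, 0 ≤ P s ^ (-(1 + 1) : ℝ) := fun s => Real.rpow_nonneg (P_pos s).le _
  have hcont : Continuous (fun s => P s ^ (-(1 + 1) : ℝ)) :=
    continuous_P.rpow_const fun s => Or.inl (P_pos s).ne'
  have hint : Integrable (fun s => P s ^ (-(1 + 1) : ℝ)) := by
    refine ⟨hcont.aestronglyMeasurable, ?_⟩
    rw [hasFiniteIntegral_iff_ofReal (Eventually.of_forall hpos)]
    exact lt_top_iff_ne_top.2 hC
  have h1 := integral_of_hasDerivAt_of_tendsto hder hint Real.tendsto_sigmoid_atBot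
    Real.tendsto_sigmoid_atTop
  unfold C
  rw [← ofReal_integral_eq_lintegral_ofReal hint (Eventually.of_forall hpos), h1]
  simp

theorem rho_one_Ioc {s t : ℝ} (hst : s ≤ t) :
    rho 1 (Ioc s t) = ENNReal.ofReal (Real.sigmoid t - Real.sigmoid s) := by
  have hder : ∀ x ∈ uIcc s t, HasDerivAt Real.sigmoid (P x ^ (-(1 + 1) : ℝ)) x := by
    intro x _
    rw [Pw_one]
    exact Real.hasDerivAt_sigmoid x
  have hpos : ∀ s, 0 ≤ P s ^ (-(1 + 1) : ℝ) := fun s => Real.rpow_nonneg (P_pos s).le _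
  have hcont : Continuous (fun s => P s ^ (-(1 + 1) : ℝ)) :=
    continuous_P.rpow_const fun s => Or.inl (P_pos s).ne'
  have h1 := intervalIntegral.integral_eq_sub_of_hasDerivAt hder (hcont.intervalIntegrable s t)
  rw [intervalIntegral.integral_of_le hst] at h1
  have hint : IntegrableOn (fun s => P s ^ (-(1 + 1) : ℝ)) (Ioc s t) :=
    (intervalIntegrable_iff_integrableOn_Ioc_of_le hst).1 (hcont.intervalIntegrable s t)
  unfold rho
  rw [C_one, inv_one, one_smul, withDensity_apply _ measurableSet_Ioc,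
    ← ofReal_integral_eq_lintegral_ofReal hint (Eventually.of_forall hpos), h1]

/-- The volume bound. -/
theorem vol_le_cap {p : ℝ} (hp : -1 < p) (hp1 : p < 1) {K : Set E1} (hK : IsCompact K) :
    vcst p * (volume K).toReal ≤ capf p K := by
  have hfin : volume K ≠ ⊤ := hK.measure_lt_top.ne
  by_cases hzero : volume K = 0
  · rw [hzero, ENNReal.toReal_zero, mul_zero]
    unfold capf
    split_ifs
    · exact ENNReal.toReal_nonneg
    · exact le_rfl
    · have := Metric.diam_nonneg (s := K)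
      positivity
    · exact ENNReal.toReal_nonneg
  set M := (volume K).toReal with hMdef
  have hM : 0 < M := ENNReal.toReal_pos hzero hfin
  set μ : Measure E1 := (volume K)⁻¹ • volume.restrict K with hμ
  have hKm := hK.isClosed.measurableSet
  have h1 : μ univ = 1 := by
    rw [hμ, Measure.smul_apply, Measure.restrict_apply_univ, smul_eq_mul]
    exact ENNReal.inv_mul_cancel hzero hfin
  have h2 : μ Kᶜ = 0 := by
    rw [hμ, Measure.smul_apply, Measure.restrict_apply hKm.compl, compl_inter_self]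
    simp
  obtain ⟨τ, hτ, hmap⟩ := exists_TK (p := 1) (by norm_num) hK h1 h2
  refine cap_low hp hp1 hM hK hτ (good_of_expanding hp hM ?_)
  intro s t hst
  have hτ0 : 0 ≤ τ t - τ s := sub_nonneg.2 (hτ.1 hst.le)
  have hm : Measurable (fun s => io (τ s)) := measurable_io.comp hτ.1.measurable
  have hset : MeasurableSet {x : E1 | x 0 ∈ Icc (τ s) (τ t)} :=
    measurable_coord measurableSet_Icc
  have h3 : rho 1 (Ioc s t) ≤ μ {x : E1 | x 0 ∈ Icc (τ s) (τ t)} := by
    rw [← hmap, Measure.map_apply hm hset]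
    refine measure_mono fun x hx => ?_
    change (io (τ x)) 0 ∈ Icc (τ s) (τ t)
    rw [coord_io]
    exact ⟨hτ.1 hx.1.le, hτ.1 hx.2⟩
  have h4 : μ {x : E1 | x 0 ∈ Icc (τ s) (τ t)} ≤
      (volume K)⁻¹ * ENNReal.ofReal (τ t - τ s) := by
    rw [hμ, Measure.smul_apply, smul_eq_mul]
    refine mul_le_mul_right ?_ _
    rw [← vol_coord_Icc]
    exact Measure.restrict_apply_le _ _
  have h5 := h3.trans h4
  rw [rho_one_Ioc hst.le] at h5
  have h6 : volume K * ENNReal.ofReal (Real.sigmoid t - Real.sigmoid s) ≤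
      ENNReal.ofReal (τ t - τ s) := by
    calc _ ≤ volume K * ((volume K)⁻¹ * ENNReal.ofReal (τ t - τ s)) := mul_le_mul_right h5 _
      _ = _ := by rw [← mul_assoc, ENNReal.mul_inv_cancel hzero hfin, one_mul]
  have h7 := ENNReal.toReal_mono ENNReal.ofReal_ne_top h6
  rw [ENNReal.toReal_mul, ENNReal.toReal_ofReal (sigmoid_sub_pos hst).le,
    ENNReal.toReal_ofReal hτ0] at h7
  exact h7

/-- The comparison of two capacities. -/
theorem cap_ratio {p q : ℝ} (hp : -1 < p) (hpq : p < q) (hq : q < 1) {K : Set E1}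
    (hK : IsCompact K) (h0 : 0 ≤ capf p K) : capf q K * vcst p ≤ capf p K * vcst q := by
  have hp1 : p < 1 := by linarith
  have hq' : -1 < q := by linarith
  have hvp := vcst_pos hp hp1
  have hvq := vcst_pos hq' hq
  by_contra hcon
  rw [not_le] at hcon
  have h1 : capf p K / vcst p < capf q K / vcst q := by
    rw [div_lt_div_iff₀ hvp hvq]
    exact hcon
  have h2 : 0 ≤ capf p K / vcst p := div_nonneg h0 hvp.le
  set M := (capf p K / vcst p + capf q K / vcst q) / 2 with hM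
  have hM0 : 0 < M := by linarith
  have hM1 : M < capf q K / vcst q := by linarith
  have hM2 : capf p K / vcst p < M := by linarith
  have h3 : vcst q * M < capf q K := by
    rw [lt_div_iff₀ hvq] at hM1
    linarith
  obtain ⟨τ, hτ, hgood⟩ := cap_up hq' hq hM0 hK h3
  obtain ⟨a, b, ha, hb, -⟩ := hτ.limits hK
  have h4 := cap_low hp hp1 hM0 hK hτ (hgood.mono hp hpq.le hq hM0 hτ.1 ha hb)
  rw [div_lt_iff₀ hvp] at hM2
  linarith

theorem cap_le_diam {q : ℝ} (hq' : -1 < q) (hq : q < 1) {K : Set E1}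
    (hK : IsCompact K) : capf q K ≤ vcst q * Metric.diam K := by
  have hvq := vcst_pos hq' hq
  have hd := Metric.diam_nonneg (s := K)
  by_contra hcon
  rw [not_le] at hcon
  have h1 : Metric.diam K < capf q K / vcst q := by
    rw [lt_div_iff₀ hvq]
    linarith
  set M := (Metric.diam K + capf q K / vcst q) / 2 with hM
  have hM0 : 0 < M := by linarith
  have hM1 : M < capf q K / vcst q := by linarith
  have h3 : vcst q * M < capf q K := by
    rw [lt_div_iff₀ hvq] at hM1
    linarith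
  obtain ⟨τ, hτ, hgood⟩ := cap_up hq' hq hM0 hK h3
  obtain ⟨a, b, ha, hb, hab⟩ := hτ.limits hK
  have := hgood.le hq' hq hM0 hτ.1 ha hb
  linarith

theorem cap_ball {p : ℝ} (hp : -1 < p) (hp1 : p < 1) :
    capf p (Metric.closedBall (0 : E1) 1) = vcst p * 2 := by
  have hK : IsCompact (Metric.closedBall (0 : E1) 1) := isCompact_closedBall _ _
  refine le_antisymm ?_ ?_
  · have := cap_le_diam hp hp1 hK
    rwa [diam_ball] at this
  · have hτ : TK (Metric.closedBall (0 : E1) 1) (fun s => 2 * Real.sigmoid s - 1) := by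
      constructor
      · intro s t hst
        have := Real.sigmoid_monotone hst
        simp only
        linarith
      · refine Eventually.of_forall fun s => ?_
        have := Real.sigmoid_pos s
        have := Real.sigmoid_lt_one s
        exact io_mem_ball ⟨by linarith, by linarith⟩
    refine cap_low hp hp1 (by norm_num) hK hτ (good_of_expanding hp (by norm_num) ?_)
    intro s t _
    linarith

end Pool.Agent.Lib.MP_6cd19d_an
end

section

/-!
# The inequalities for `n = 1` (proof of helper31's `DimOne`)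
-/

set_option autoImplicit false

open MeasureTheory Set Filter Topology Metric
open scoped ENNReal NNReal

namespace Pool.Agent.Lib.MP_6cd19d_an.Fin

open Pool.Agent.Lib.MP_6cd19d_an

theorem capf_one (s : ℝ) (K : Set (ND.E 1)) : ND.capf s K = capf s K := rfl

/-- The two ratio inequalities on the line, for all `p < q < 1`. -/
theorem one_all {p q : ℝ} (hpq : p < q) (hq : q < 1) {K : Set (ND.E 1)} (hK : IsCompact K)
    (hpos : 0 < ND.capf p K) :
    ND.capf q K / ND.capf p K ≤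
        ND.capf q (closedBall (0 : ND.E 1) 1) / ND.capf p (closedBall (0 : ND.E 1) 1) ∧
      (volume K).toReal / ND.capf p K ≤
        (volume (closedBall (0 : ND.E 1) 1)).toReal / ND.capf p (closedBall (0 : ND.E 1) 1) := by
  simp only [capf_one] at hpos ⊢
  have hB : IsCompact (Metric.closedBall (0 : EuclideanSpace ℝ (Fin 1)) 1) :=
    isCompact_closedBall _ _
  rcases lt_or_ge (-1 : ℝ) p with hp | hp
  · have hp1 : p < 1 := by linarith
    have hq' : -1 < q := by linarith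
    have hvp := vcst_pos hp hp1
    have hvq := vcst_pos hq' hq
    rw [cap_ball hp hp1, cap_ball hq' hq, vol_ball]
    constructor
    · have h1 := cap_ratio hp hpq hq hK hpos.le
      rw [div_le_div_iff₀ hpos (by positivity)]
      nlinarith
    · have h1 := vol_le_cap hp hp1 hK
      rw [div_le_div_iff₀ hpos (by positivity)]
      nlinarith
  · have hpneg := capf_le_neg_one hp hK
    have hpball := capf_le_neg_one hp hB
    have h2p : (0 : ℝ) < 2 ^ (1 / p) := Real.rpow_pos_of_pos (by norm_num) _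
    rw [diam_ball] at hpball
    have hd : 0 < Metric.diam K := by
      rw [hpneg] at hpos
      exact pos_of_mul_pos_right hpos h2p.le
    rw [hpneg, hpball, vol_ball]
    constructor
    · rcases lt_or_ge (-1 : ℝ) q with hq' | hq'
      · have h1 := cap_le_diam hq' hq hK
        rw [cap_ball hq' hq, div_le_div_iff₀ (by positivity) (by positivity)]
        calc capf q K * (2 ^ (1 / p) * 2) ≤ (vcst q * Metric.diam K) * (2 ^ (1 / p) * 2) :=
              mul_le_mul_of_nonneg_right h1 (by positivity)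
          _ = _ := by ring
      · rw [capf_le_neg_one hq' hK, capf_le_neg_one hq' hB, diam_ball]
        rw [div_le_div_iff₀ (by positivity) (by positivity)]
        exact le_of_eq (by ring)
    · have h1 := vol_le_diam hK
      rw [div_le_div_iff₀ (by positivity) (by positivity)]
      nlinarith

end Pool.Agent.Lib.MP_6cd19d_an.Fin
end
end
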